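import Pool.Agent.KS6_63.GFF.Defs3
import Pool.Agent.KS6_63.GFF.B.crossing_

open MeasureTheory ProbabilityTheory

namespace H941.circuit_lemma

theorem place_adj (o : Bool) (t u v : ℤ × ℤ) (h : grid.Adj u v) :
    grid.Adj (place o t u) (place o t v) := by
  have h' : |u.1 - v.1| + |u.2 - v.2| = 1 := h
  show |(place o t u).1 - (place o t v).1| + |(place o t u).2 - (place o t v).2| = 1
  cases o with
  | true =>
    simp only [place, if_true]
    have h1 : t.1 + u.1 - (t.1 + v.1) = u.1 - v.1 := by ring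
    have h2 : t.2 + u.2 - (t.2 + v.2) = u.2 - v.2 := by ring
    rw [h1, h2]; exact h'
  | false =>
    simp only [place, Bool.false_eq_true, if_false]
    have h1 : t.1 + u.2 - (t.1 + v.2) = u.2 - v.2 := by ring
    have h2 : t.2 + u.1 - (t.2 + v.1) = u.1 - v.1 := by ring
    rw [h1, h2, add_comm]; exact h'

/-- placement as a graph homomorphism -/
def placeHom (o : Bool) (t : ℤ × ℤ) : grid →g grid where
  toFun := place o t
  map_rel' := fun {a b} h => place_adj o t a b h

theorem arm_true (t : ℤ × ℤ) (w d : ℕ) (lam len : ℝ) (f : ℤ × ℤ → ℝ)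
    (h : armOK true t w d lam len f) :
    ∃ (u v : ℤ × ℤ) (p : grid.Walk u v), u.1 = t.1 + w ∧ v.1 = t.1 + 5 * w ∧
      (∀ z ∈ p.support, t.1 + w ≤ z.1 ∧ z.1 ≤ t.1 + 5 * w ∧ t.2 + d ≤ z.2 ∧ z.2 ≤ t.2 + w - d ∧
        f z ≤ lam) ∧ (p.support.length : ℝ) ≤ len := by
  obtain ⟨u, v, p, hu, hv, hp, hl⟩ := h
  refine ⟨_, _, p.map (placeHom true t), ?_, ?_, ?_, ?_⟩
  · show (place true t u).1 = _
    simp [place, hu]
  · show (place true t v).1 = _
    simp [place, hv]
  · intro z hz
    rw [SimpleGraph.Walk.support_map, List.mem_map] at hz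
    obtain ⟨z', hz', rfl⟩ := hz
    obtain ⟨h1, h2⟩ := hp z' hz'
    simp only [rect, Finset.mem_product, Finset.mem_Icc] at h1
    have e : (placeHom true t) z' = (t.1 + z'.1, t.2 + z'.2) := by
      show place true t z' = _
      simp [place]
    have h2' : f ((placeHom true t) z') ≤ lam := h2
    refine ⟨?_, ?_, ?_, ?_, h2'⟩ <;> rw [e] <;> dsimp only <;> omega
  · rw [SimpleGraph.Walk.support_map, List.length_map]
    exact hl

theorem arm_false (t : ℤ × ℤ) (w d : ℕ) (lam len : ℝ) (f : ℤ × ℤ → ℝ)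
    (h : armOK false t w d lam len f) :
    ∃ (u v : ℤ × ℤ) (p : grid.Walk u v), u.2 = t.2 + w ∧ v.2 = t.2 + 5 * w ∧
      (∀ z ∈ p.support, t.2 + w ≤ z.2 ∧ z.2 ≤ t.2 + 5 * w ∧ t.1 + d ≤ z.1 ∧ z.1 ≤ t.1 + w - d ∧
        f z ≤ lam) ∧ (p.support.length : ℝ) ≤ len := by
  obtain ⟨u, v, p, hu, hv, hp, hl⟩ := h
  refine ⟨_, _, p.map (placeHom false t), ?_, ?_, ?_, ?_⟩
  · show (place false t u).2 = _
    simp [place, hu]
  · show (place false t v).2 = _
    simp [place, hv]
  · intro z hz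
    rw [SimpleGraph.Walk.support_map, List.mem_map] at hz
    obtain ⟨z', hz', rfl⟩ := hz
    obtain ⟨h1, h2⟩ := hp z' hz'
    simp only [rect, Finset.mem_product, Finset.mem_Icc] at h1
    have e : (placeHom false t) z' = (t.1 + z'.2, t.2 + z'.1) := by
      show place false t z' = _
      simp [place]
    have h2' : f ((placeHom false t) z') ≤ lam := h2
    refine ⟨?_, ?_, ?_, ?_, h2'⟩ <;> rw [e] <;> dsimp only <;> omega
  · rw [SimpleGraph.Walk.support_map, List.length_map]
    exact hl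

theorem adj_bounds (a v : ℤ × ℤ) (h : grid.Adj a v) :
    a.1 - v.1 ≤ 1 ∧ v.1 - a.1 ≤ 1 ∧ a.2 - v.2 ≤ 1 ∧ v.2 - a.2 ≤ 1 := by
  have hh : |a.1 - v.1| + |a.2 - v.2| = 1 := h
  have h1 := le_abs_self (a.1 - v.1)
  have h2 := neg_abs_le (a.1 - v.1)
  have h3 := le_abs_self (a.2 - v.2)
  have h4 := neg_abs_le (a.2 - v.2)
  have h5 := abs_nonneg (a.1 - v.1)
  have h6 := abs_nonneg (a.2 - v.2)
  omega

theorem first_exit (c : ℤ × ℤ) (w : ℤ) (a b : ℤ × ℤ) (r : grid.Walk a b)
    (ha : c.1 - 2 * w < a.1 ∧ a.1 < c.1 + 2 * w ∧ c.2 - 2 * w < a.2 ∧ a.2 < c.2 + 2 * w)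
    (hb : b.1 ≤ c.1 - 2 * w ∨ c.1 + 2 * w ≤ b.1 ∨ b.2 ≤ c.2 - 2 * w ∨ c.2 + 2 * w ≤ b.2) :
    ∃ (b' : ℤ × ℤ) (r' : grid.Walk a b'), (∀ z ∈ r'.support, z ∈ r.support) ∧
      (∀ z ∈ r'.support, c.1 - 2 * w ≤ z.1 ∧ z.1 ≤ c.1 + 2 * w ∧ c.2 - 2 * w ≤ z.2 ∧
        z.2 ≤ c.2 + 2 * w) ∧
      (b'.1 ≤ c.1 - 2 * w ∨ c.1 + 2 * w ≤ b'.1 ∨ b'.2 ≤ c.2 - 2 * w ∨ c.2 + 2 * w ≤ b'.2) := by
  induction r with
  | nil => exfalso; omega
  | @cons a v b h p ih =>
    by_cases hv : c.1 - 2 * w < v.1 ∧ v.1 < c.1 + 2 * w ∧ c.2 - 2 * w < v.2 ∧ v.2 < c.2 + 2 * w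
    · obtain ⟨b', r', h1, h2, h3⟩ := ih hv hb
      refine ⟨b', SimpleGraph.Walk.cons h r', ?_, ?_, h3⟩
      · intro z hz
        rw [SimpleGraph.Walk.support_cons, List.mem_cons] at hz ⊢
        rcases hz with hz | hz
        · exact Or.inl hz
        · exact Or.inr (h1 z hz)
      · intro z hz
        rw [SimpleGraph.Walk.support_cons, List.mem_cons] at hz
        rcases hz with hz | hz
        · rw [hz]; omega
        · exact h2 z hz
    · refine ⟨v, SimpleGraph.Walk.cons h SimpleGraph.Walk.nil, ?_, ?_, ?_⟩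
      · intro z hz
        rw [SimpleGraph.Walk.support_cons, List.mem_cons] at hz ⊢
        rcases hz with hz | hz
        · exact Or.inl hz
        · right
          rw [SimpleGraph.Walk.support_nil, List.mem_singleton] at hz
          rw [hz]
          exact p.start_mem_support
      · intro z hz
        rw [SimpleGraph.Walk.support_cons, List.mem_cons] at hz
        have hh := adj_bounds a v h
        rcases hz with hz | hz
        · rw [hz]; omega
        · rw [SimpleGraph.Walk.support_nil, List.mem_singleton] at hz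
          rw [hz]
          omega
      · omega

theorem _root_.H941.circuit_lemma (c : ℤ × ℤ) (w d : ℕ) (hd : 1 ≤ d) (hw : 2 * d ≤ w) (lam len : ℝ) (f : ℤ × ℤ → ℝ)
    (h : circuitOK c w d lam len f) :
    ∃ H : Finset (ℤ × ℤ), (grid.induce (H : Set (ℤ × ℤ))).Connected ∧ (∀ z ∈ H, f z ≤ lam) ∧
      (∀ z ∈ H, |z.1 - c.1| ≤ 2 * (w : ℤ) ∧ |z.2 - c.2| ≤ 2 * (w : ℤ)) ∧ (H.card : ℝ) ≤ 4 * len ∧
      (∀ a b : ℤ × ℤ, |a.1 - c.1| ≤ w → |a.2 - c.2| ≤ w →
        (2 * (w : ℤ) ≤ |b.1 - c.1| ∨ 2 * (w : ℤ) ≤ |b.2 - c.2|) →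
        ∀ r : grid.Walk a b, ∃ z ∈ r.support, z ∈ H) := by
  classical
  obtain ⟨h1, h2, h3, h4⟩ := h
  obtain ⟨u1, v1, p1, hu1, hv1, hp1, hl1⟩ := arm_true _ w d lam len f h1
  obtain ⟨u2, v2, p2, hu2, hv2, hp2, hl2⟩ := arm_true _ w d lam len f h2
  obtain ⟨u3, v3, p3, hu3, hv3, hp3, hl3⟩ := arm_false _ w d lam len f h3
  obtain ⟨u4, v4, p4, hu4, hv4, hp4, hl4⟩ := arm_false _ w d lam len f h4
  dsimp only at hu1 hv1 hp1 hu2 hv2 hp2 hu3 hv3 hp3 hu4 hv4 hp4
  -- meetings
  have m13 : ∃ v, v ∈ p1.support ∧ v ∈ p3.support := by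
    refine crossing (c.1 - 2 * w) (c.1 + 2 * w) (c.2 + w + d) (c.2 + 2 * w - d) _ _ _ _ p1 p3
      ?_ (by omega) (by omega) ?_ (by omega) (by omega)
    · intro z hz
      have := hp1 z hz
      omega
    · intro z hz
      have := hp3 z hz
      omega
  have m14 : ∃ v, v ∈ p1.support ∧ v ∈ p4.support := by
    refine crossing (c.1 - 2 * w) (c.1 + 2 * w) (c.2 + w + d) (c.2 + 2 * w - d) _ _ _ _ p1 p4
      ?_ (by omega) (by omega) ?_ (by omega) (by omega)
    · intro z hz
      have := hp1 z hz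
      omega
    · intro z hz
      have := hp4 z hz
      omega
  have m23 : ∃ v, v ∈ p2.support ∧ v ∈ p3.support := by
    refine crossing (c.1 - 2 * w) (c.1 + 2 * w) (c.2 - 2 * w + d) (c.2 - w - d) _ _ _ _ p2 p3
      ?_ (by omega) (by omega) ?_ (by omega) (by omega)
    · intro z hz
      have := hp2 z hz
      omega
    · intro z hz
      have := hp3 z hz
      omega
  have c1 := p1.connected_induce_support
  have c2 := p2.connected_induce_support
  have c3 := p3.connected_induce_support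
  have c4 := p4.connected_induce_support
  refine ⟨p1.support.toFinset ∪ p2.support.toFinset ∪ p3.support.toFinset ∪
    p4.support.toFinset, ?_, ?_, ?_, ?_, ?_⟩
  · have e : ((p1.support.toFinset ∪ p2.support.toFinset ∪ p3.support.toFinset ∪
        p4.support.toFinset : Finset (ℤ × ℤ)) : Set (ℤ × ℤ)) =
        (({v | v ∈ p1.support} ∪ {v | v ∈ p3.support}) ∪ {v | v ∈ p2.support}) ∪
          {v | v ∈ p4.support} := by
      ext z
      simp only [Finset.coe_union, List.coe_toFinset, Set.mem_union, Set.mem_ofPred_eq]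
      tauto
    rw [e]
    obtain ⟨z13, ha13, hb13⟩ := m13
    obtain ⟨z14, ha14, hb14⟩ := m14
    obtain ⟨z23, ha23, hb23⟩ := m23
    have s1 := SimpleGraph.induce_union_connected c1.preconnected c3.preconnected ⟨z13, ha13, hb13⟩
    have s2 := SimpleGraph.induce_union_connected s1.preconnected c2.preconnected ⟨z23, Or.inr hb23, ha23⟩
    have s3 := SimpleGraph.induce_union_connected s2.preconnected c4.preconnected ⟨z14, Or.inl (Or.inl ha14), hb14⟩
    exact s3
  · intro z hz
    simp only [Finset.mem_union, List.mem_toFinset] at hz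
    rcases hz with ((hz | hz) | hz) | hz
    · exact (hp1 z hz).2.2.2.2
    · exact (hp2 z hz).2.2.2.2
    · exact (hp3 z hz).2.2.2.2
    · exact (hp4 z hz).2.2.2.2
  · intro z hz
    simp only [Finset.mem_union, List.mem_toFinset] at hz
    rcases hz with ((hz | hz) | hz) | hz
    · have := hp1 z hz
      exact ⟨abs_le.mpr (by omega), abs_le.mpr (by omega)⟩
    · have := hp2 z hz
      exact ⟨abs_le.mpr (by omega), abs_le.mpr (by omega)⟩
    · have := hp3 z hz
      exact ⟨abs_le.mpr (by omega), abs_le.mpr (by omega)⟩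
    · have := hp4 z hz
      exact ⟨abs_le.mpr (by omega), abs_le.mpr (by omega)⟩
  · have k1 := List.toFinset_card_le p1.support
    have k2 := List.toFinset_card_le p2.support
    have k3 := List.toFinset_card_le p3.support
    have k4 := List.toFinset_card_le p4.support
    have k : (p1.support.toFinset ∪ p2.support.toFinset ∪ p3.support.toFinset ∪
        p4.support.toFinset).card ≤ p1.support.length + p2.support.length + p3.support.length +
        p4.support.length := by
      refine (Finset.card_union_le _ _).trans (Nat.add_le_add ?_ k4)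
      refine (Finset.card_union_le _ _).trans (Nat.add_le_add ?_ k3)
      exact (Finset.card_union_le _ _).trans (Nat.add_le_add k1 k2)
    have k' : ((p1.support.toFinset ∪ p2.support.toFinset ∪ p3.support.toFinset ∪
        p4.support.toFinset).card : ℝ) ≤ p1.support.length + p2.support.length +
        p3.support.length + p4.support.length := by exact_mod_cast k
    linarith
  · intro a b ha1 ha2 hb r
    rw [abs_le] at ha1 ha2
    rw [le_abs, le_abs] at hb
    obtain ⟨b', r', r1, r2, r3⟩ := first_exit c w a b r (by omega) (by omega)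
    have key : ∃ z, z ∈ r'.support ∧ (z ∈ p1.support ∨ z ∈ p2.support ∨ z ∈ p3.support ∨
        z ∈ p4.support) := by
      have hcase : c.2 + 2 * w ≤ b'.2 ∨ b'.2 ≤ c.2 - 2 * w ∨ c.1 + 2 * w ≤ b'.1 ∨
          b'.1 ≤ c.1 - 2 * w := by omega
      rcases hcase with hc | hc | hc | hc
      · obtain ⟨z, hz1, hz2⟩ := crossing (c.1 - 2 * w) (c.1 + 2 * w) (c.2 + w + d)
          (c.2 + 2 * w - d) _ _ _ _ p1 r' (fun z hz => by have := hp1 z hz; omega)
          (by omega) (by omega) (fun z hz => by have := r2 z hz; omega) (by omega) (by omega)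
        exact ⟨z, hz2, Or.inl hz1⟩
      · obtain ⟨z, hz1, hz2⟩ := crossing (c.1 - 2 * w) (c.1 + 2 * w) (c.2 - 2 * w + d)
          (c.2 - w - d) _ _ _ _ p2 r'.reverse (fun z hz => by have := hp2 z hz; omega)
          (by omega) (by omega) (fun z hz => by
            rw [SimpleGraph.Walk.support_reverse, List.mem_reverse] at hz
            have := r2 z hz; omega) (by omega) (by omega)
        rw [SimpleGraph.Walk.support_reverse, List.mem_reverse] at hz2
        exact ⟨z, hz2, Or.inr (Or.inl hz1)⟩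
      · obtain ⟨z, hz1, hz2⟩ := crossing (c.1 + w + d) (c.1 + 2 * w - d) (c.2 - 2 * w)
          (c.2 + 2 * w) _ _ _ _ r' p3 (fun z hz => by have := r2 z hz; omega)
          (by omega) (by omega) (fun z hz => by have := hp3 z hz; omega) (by omega) (by omega)
        exact ⟨z, hz1, Or.inr (Or.inr (Or.inl hz2))⟩
      · obtain ⟨z, hz1, hz2⟩ := crossing (c.1 - 2 * w + d) (c.1 - w - d) (c.2 - 2 * w)
          (c.2 + 2 * w) _ _ _ _ r'.reverse p4 (fun z hz => by
            rw [SimpleGraph.Walk.support_reverse, List.mem_reverse] at hz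
            have := r2 z hz; omega)
          (by omega) (by omega) (fun z hz => by have := hp4 z hz; omega) (by omega) (by omega)
        rw [SimpleGraph.Walk.support_reverse, List.mem_reverse] at hz1
        exact ⟨z, hz1, Or.inr (Or.inr (Or.inr hz2))⟩
    obtain ⟨z, hz1, hz2⟩ := key
    refine ⟨z, r1 z hz1, ?_⟩
    simp only [Finset.mem_union, List.mem_toFinset]
    rcases hz2 with h | h | h | h
    · exact Or.inl (Or.inl (Or.inl h))
    · exact Or.inl (Or.inl (Or.inr h))
    · exact Or.inl (Or.inr h)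
    · exact Or.inr h

end H941.circuit_lemma
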