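import Pool.Agent.KS6_63.GFF.Defs3
import Pool.Agent.KS6_63.GFF.A2
import Pool.Agent.KS6_63.GFF.A3

open MeasureTheory ProbabilityTheory

namespace H941.hit_basic

theorem nbrs_symm (u v : ℤ × ℤ) : u ∈ nbrs v ↔ v ∈ nbrs u := by
  unfold nbrs
  simp only [Finset.mem_insert, Finset.mem_singleton, Prod.ext_iff]
  constructor
  · rintro (⟨h1, h2⟩ | ⟨h1, h2⟩ | ⟨h1, h2⟩ | ⟨h1, h2⟩)
    · right; left; constructor <;> omega
    · left; constructor <;> omega
    · right; right; right; constructor <;> omega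
    · right; right; left; constructor <;> omega
  · rintro (⟨h1, h2⟩ | ⟨h1, h2⟩ | ⟨h1, h2⟩ | ⟨h1, h2⟩)
    · right; left; constructor <;> omega
    · left; constructor <;> omega
    · right; right; right; constructor <;> omega
    · right; right; left; constructor <;> omega

theorem hit_sum (D K : Finset (ℤ × ℤ)) (z : ℤ × ℤ) : ∑ v ∈ K, hit D K z v
    = ∑ u ∈ D \ K, green (D \ K) z u * ((1 / 4) * ∑ v ∈ nbrs u, if v ∈ K then 1 else 0) := by
  obtain ⟨-, h0, -, -, -, -⟩ := green_basic (D \ K)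
  have e1 : ∀ v, ∑ u ∈ nbrs v, green (D \ K) z u
      = ∑ u ∈ D \ K, if u ∈ nbrs v then green (D \ K) z u else 0 := by
    intro v
    rw [← Finset.sum_filter, Finset.filter_mem_eq_inter, Finset.inter_comm]
    symm
    refine Finset.sum_subset Finset.inter_subset_left fun u hu hn => h0 z u (Or.inr fun hD => hn ?_)
    exact Finset.mem_inter.2 ⟨hu, hD⟩
  have e2 : ∀ u, (∑ v ∈ nbrs u, if v ∈ K then (1 : ℝ) else 0)
      = ∑ v ∈ K, if u ∈ nbrs v then (1 : ℝ) else 0 := by
    intro u
    rw [← Finset.sum_filter, ← Finset.sum_filter, Finset.filter_mem_eq_inter]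
    congr 1
    ext v
    rw [Finset.mem_inter, Finset.mem_filter, nbrs_symm u v, and_comm]
  unfold hit
  simp_rw [e1, e2]
  rw [← Finset.mul_sum, Finset.sum_comm, Finset.mul_sum]
  refine Finset.sum_congr rfl fun u _ => ?_
  rw [Finset.mul_sum, Finset.mul_sum, Finset.mul_sum]
  refine Finset.sum_congr rfl fun v _ => ?_
  split_ifs <;> ring

theorem _root_.H941.hit_basic (D K : Finset (ℤ × ℤ)) :
    (∀ z v, 0 ≤ hit D K z v) ∧
    (∀ z v, z ∉ D \ K → hit D K z v = 0) ∧
    (∀ z, ∑ v ∈ K, hit D K z v ≤ 1) ∧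
    (∀ D' : Finset (ℤ × ℤ), D ⊆ D' → ∀ z v, hit D K z v ≤ hit D' K z v) ∧
    (∀ K' : Finset (ℤ × ℤ), K ⊆ K' → ∀ z v, hit D K' z v ≤ hit D K z v) := by
  obtain ⟨h1, h0, -, hmono, -, -⟩ := green_basic (D \ K)
  refine ⟨fun z v => ?_, fun z v hz => ?_, fun z => ?_, fun D' hD z v => ?_, fun K' hK z v => ?_⟩
  · exact mul_nonneg (by norm_num) (Finset.sum_nonneg fun u _ => h1 z u)
  · unfold hit
    rw [Finset.sum_eq_zero fun u _ => h0 z u (Or.inl hz), mul_zero]
  · rw [hit_sum]
    have h := (green_le (D \ K)).2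
      (fun u => (1 / 4) * ∑ v ∈ nbrs u, if v ∈ K then (1 : ℝ) else 0)
      (fun u => if u ∈ K then 0 else 1)
      (fun u _ => mul_nonneg (by norm_num) (Finset.sum_nonneg fun v _ => by split_ifs <;> norm_num))
      (fun u => by split_ifs <;> norm_num) ?_ z
    · refine h.trans ?_
      split_ifs <;> norm_num
    · intro x hx
      have hxK : x ∉ K := (Finset.mem_sdiff.1 hx).2
      simp only [if_neg hxK]
      rw [← mul_add, ← Finset.sum_add_distrib]
      have : ∀ v ∈ nbrs x, ((if v ∈ K then (1 : ℝ) else 0) + if v ∈ K then 0 else 1) = 1 := by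
        intro v _
        split_ifs <;> norm_num
      rw [Finset.sum_congr rfl this, Finset.sum_const, nsmul_eq_mul, mul_one]
      have hc : (nbrs x).card ≤ 4 := Finset.card_le_four
      have hc' : ((nbrs x).card : ℝ) ≤ 4 := by exact_mod_cast hc
      linarith
  · unfold hit
    refine mul_le_mul_of_nonneg_left (Finset.sum_le_sum fun u _ => ?_) (by norm_num)
    exact hmono _ (Finset.sdiff_subset_sdiff hD (Finset.Subset.refl K)) z u
  · unfold hit
    refine mul_le_mul_of_nonneg_left (Finset.sum_le_sum fun u _ => ?_) (by norm_num)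
    obtain ⟨-, -, -, hmono', -, -⟩ := green_basic (D \ K')
    exact hmono' _ (Finset.sdiff_subset_sdiff (Finset.Subset.refl D) hK) z u

end H941.hit_basic
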