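import Pool.Agent.KS6_63.GFF.Defs3
import Pool.Agent.KS6_63.GFF.A3
import Pool.Agent.KS6_63.GFF.B.crossing_
import Pool.Agent.KS6_63.GFF.B.expl_facts_
import Pool.Agent.KS6_63.GFF.B.green_conn_

open MeasureTheory ProbabilityTheory

namespace H941.expl_disconnect

private def Conn (S : ℤ × ℤ → Prop) (a b : ℤ × ℤ) : Prop :=
  ∃ p : grid.Walk a b, ∀ v ∈ p.support, S v

private theorem Conn.trans {S : ℤ × ℤ → Prop} {a b c : ℤ × ℤ} (h1 : Conn S a b) (h2 : Conn S b c) :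
    Conn S a c := by
  obtain ⟨p, hp⟩ := h1
  obtain ⟨q, hq⟩ := h2
  refine ⟨p.append q, fun v hv => ?_⟩
  rcases (SimpleGraph.Walk.mem_support_append_iff p q).1 hv with h | h
  · exact hp v h
  · exact hq v h

private theorem Conn.symm {S : ℤ × ℤ → Prop} {a b : ℤ × ℤ} (h1 : Conn S a b) :
    Conn S b a := by
  obtain ⟨p, hp⟩ := h1
  refine ⟨p.reverse, fun v hv => ?_⟩
  rw [SimpleGraph.Walk.support_reverse, List.mem_reverse] at hv
  exact hp v hv

private theorem Conn.mono {S S' : ℤ × ℤ → Prop} (h : ∀ v, S v → S' v) {a b : ℤ × ℤ}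
    (h1 : Conn S a b) : Conn S' a b := by
  obtain ⟨p, hp⟩ := h1
  exact ⟨p, fun v hv => h v (hp v hv)⟩

private theorem conn_hor_aux (a y : ℤ) (n : ℕ) :
    Conn (fun v => a ≤ v.1 ∧ v.1 ≤ a + n ∧ v.2 = y) (a, y) (a + n, y) := by
  induction n with
  | zero =>
    have h : ((a : ℤ) + ((0 : ℕ) : ℤ), y) = (a, y) := by simp
    rw [h]
    refine ⟨SimpleGraph.Walk.nil, fun v hv => ?_⟩
    rw [SimpleGraph.Walk.support_nil, List.mem_singleton] at hv
    subst hv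
    simp
  | succ n ih =>
    have hadj : grid.Adj (a + (n : ℤ), y) (a + ((n + 1 : ℕ) : ℤ), y) := by
      change |(a + (n : ℤ)) - (a + ((n + 1 : ℕ) : ℤ))| + |y - y| = 1
      push_cast
      rw [show (a + (n : ℤ)) - (a + ((n : ℤ) + 1)) = -1 by ring, sub_self]
      simp
    refine Conn.trans (b := (a + (n : ℤ), y)) (ih.mono fun v hv => ⟨hv.1, ?_, hv.2.2⟩)
      ⟨SimpleGraph.Walk.cons hadj SimpleGraph.Walk.nil, fun v hv => ?_⟩
    rotate_left
    · have := hv.2.1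
      push_cast
      linarith
    · rw [SimpleGraph.Walk.support_cons, SimpleGraph.Walk.support_nil] at hv
      simp only [List.mem_cons, List.not_mem_nil, or_false] at hv
      rcases hv with rfl | rfl
      · push_cast
        refine ⟨by simp, by simp, rfl⟩
      · push_cast
        refine ⟨by simp; positivity, le_refl _, rfl⟩

private theorem conn_ver_aux (x a : ℤ) (n : ℕ) :
    Conn (fun v => v.1 = x ∧ a ≤ v.2 ∧ v.2 ≤ a + n) (x, a) (x, a + n) := by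
  induction n with
  | zero =>
    have h : (x, (a : ℤ) + ((0 : ℕ) : ℤ)) = (x, a) := by simp
    rw [h]
    refine ⟨SimpleGraph.Walk.nil, fun v hv => ?_⟩
    rw [SimpleGraph.Walk.support_nil, List.mem_singleton] at hv
    subst hv
    simp
  | succ n ih =>
    have hadj : grid.Adj (x, a + (n : ℤ)) (x, a + ((n + 1 : ℕ) : ℤ)) := by
      change |x - x| + |(a + (n : ℤ)) - (a + ((n + 1 : ℕ) : ℤ))| = 1
      push_cast
      rw [show (a + (n : ℤ)) - (a + ((n : ℤ) + 1)) = -1 by ring, sub_self]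
      simp
    refine Conn.trans (b := (x, a + (n : ℤ))) (ih.mono fun v hv => ⟨hv.1, hv.2.1, ?_⟩)
      ⟨SimpleGraph.Walk.cons hadj SimpleGraph.Walk.nil, fun v hv => ?_⟩
    rotate_left
    · have := hv.2.2
      push_cast
      linarith
    · rw [SimpleGraph.Walk.support_cons, SimpleGraph.Walk.support_nil] at hv
      simp only [List.mem_cons, List.not_mem_nil, or_false] at hv
      rcases hv with rfl | rfl
      · push_cast
        refine ⟨rfl, by simp, by simp⟩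
      · push_cast
        refine ⟨rfl, by simp; positivity, le_refl _⟩

private theorem conn_hor (a b y : ℤ) (h : a ≤ b) :
    Conn (fun v => a ≤ v.1 ∧ v.1 ≤ b ∧ v.2 = y) (a, y) (b, y) := by
  have h1 := conn_hor_aux a y (b - a).toNat
  have h2 : (((b - a).toNat : ℕ) : ℤ) = b - a := Int.toNat_of_nonneg (by omega)
  rw [h2] at h1
  rw [show a + (b - a) = b by ring] at h1
  exact h1

private theorem conn_ver (x a b : ℤ) (h : a ≤ b) :
    Conn (fun v => v.1 = x ∧ a ≤ v.2 ∧ v.2 ≤ b) (x, a) (x, b) := by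
  have h1 := conn_ver_aux x a (b - a).toNat
  have h2 : (((b - a).toNat : ℕ) : ℤ) = b - a := Int.toNat_of_nonneg (by omega)
  rw [h2] at h1
  rw [show a + (b - a) = b by ring] at h1
  exact h1

private theorem conn_ver' (x a b lo hi : ℤ) (h1 : lo ≤ a) (h2 : a ≤ hi) (h3 : lo ≤ b) (h4 : b ≤ hi) :
    Conn (fun v => v.1 = x ∧ lo ≤ v.2 ∧ v.2 ≤ hi) (x, a) (x, b) := by
  rcases le_total a b with h | h
  · exact (conn_ver x a b h).mono fun v hv => ⟨hv.1, by linarith [hv.2.1], by linarith [hv.2.2]⟩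
  · exact ((conn_ver x b a h).mono fun v hv => ⟨hv.1, by linarith [hv.2.1], by linarith [hv.2.2]⟩).symm

private theorem mem_rect {a b c d : ℤ} {v : ℤ × ℤ} :
    v ∈ rect a b c d ↔ a ≤ v.1 ∧ v.1 ≤ b ∧ c ≤ v.2 ∧ v.2 ≤ d := by
  unfold rect
  rw [Finset.mem_product, Finset.mem_Icc, Finset.mem_Icc]
  tauto

/-- the largest column reached in a row -/
private theorem exists_top (w5 w y : ℤ) (O : ℕ → Finset (ℤ × ℤ)) (k : ℕ) (hw : w ≤ w5)
    (hO : ∀ i < k, ∀ v ∈ O i, w ≤ v.1 ∧ v.1 ≤ w5) :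
    ∃ X : ℤ, w ≤ X ∧ X ≤ w5 ∧ (X = w ∨ ∃ i < k, (X, y) ∈ O i) ∧
      ∀ i < k, ∀ v ∈ O i, v.2 = y → v.1 ≤ X := by
  classical
  let S : Finset ℤ := (Finset.Icc w w5).filter fun x => x = w ∨ ∃ i < k, (x, y) ∈ O i
  have hS : S.Nonempty := ⟨w, by simp [S, hw]⟩
  refine ⟨S.max' hS, ?_, ?_, ?_, ?_⟩
  · have := S.max'_mem hS
    exact (Finset.mem_Icc.1 (Finset.mem_filter.1 this).1).1
  · have := S.max'_mem hS
    exact (Finset.mem_Icc.1 (Finset.mem_filter.1 this).1).2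
  · have := S.max'_mem hS
    exact (Finset.mem_filter.1 this).2
  · intro i hi v hv hvy
    refine S.le_max' _ (Finset.mem_filter.2 ⟨Finset.mem_Icc.2 (hO i hi v hv), Or.inr ⟨i, hi, ?_⟩⟩)
    rw [← hvy]
    exact hv

theorem _root_.H941.expl_disconnect (w d : ℕ) (hd : 1 ≤ d) (hw : 2 * d + 1 ≤ w) (op : ℤ × ℤ → Prop) (k : ℕ)
    (hno : ∀ i ≤ k, ∀ v ∈ (expl (rect w (5 * w) d (w - d)) (rect w w d (w - d)) op i).2, v.1 ≠ 5 * w) :
    ∃ Xt Xb : ℤ, w ≤ Xt ∧ Xt ≤ 5 * w ∧ w ≤ Xb ∧ Xb ≤ 5 * w ∧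
      ∀ i < k, ∀ v ∈ (expl (rect w (5 * w) d (w - d)) (rect w w d (w - d)) op i).2, ∀ u ∈ nbrs v,
        ∀ z ∈ rect (5 * w + 1) (6 * w) 1 (w - 1),
          green ((rect 1 (7 * w - 1) 1 (w - 1) \
              (expl (rect w (5 * w) d (w - d)) (rect w w d (w - d)) op k).1) \
              (rect Xt Xt (w - d + 1) (w - 1) ∪ rect Xb Xb 1 (d - 1))) z u = 0 := by
  classical
  have hdZ : (1 : ℤ) ≤ (d : ℤ) := by exact_mod_cast hd
  have hwZ : 2 * (d : ℤ) + 1 ≤ (w : ℤ) := by exact_mod_cast hw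
  generalize (w : ℤ) = W at *
  generalize (d : ℤ) = δ at *
  set R : Finset (ℤ × ℤ) := rect W (5 * W) δ (W - δ) with hR
  set K0 : Finset (ℤ × ℤ) := rect W W δ (W - δ) with hK0
  have hKR : K0 ⊆ R := by
    intro v hv
    rw [hK0, mem_rect] at hv
    rw [hR, mem_rect]
    refine ⟨hv.1, ?_, hv.2.2.1, hv.2.2.2⟩
    linarith [hv.2.1]
  obtain ⟨hmon0, hO, hdisj, hexp, hback, hwalk, -⟩ := expl_facts R K0 hKR op
  have hmon : ∀ i j, i ≤ j → (expl R K0 op i).1 ⊆ (expl R K0 op j).1 := by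
    intro i j hij
    induction j, hij using Nat.le_induction with
    | base => exact fun _ h => h
    | succ j _ ih => exact ih.trans (hmon0 j).2.2
  have hOR : ∀ i, ∀ v ∈ (expl R K0 op i).2, W ≤ v.1 ∧ v.1 ≤ 5 * W ∧ δ ≤ v.2 ∧ v.2 ≤ W - δ := by
    intro i v hv
    have := (hmon0 i).2.1 ((hO i).1 hv)
    rw [hR, mem_rect] at this
    exact this
  obtain ⟨Xt, hXt1, hXt2, hXt3, hXt4⟩ := exists_top (5 * W) W (W - δ)
    (fun i => (expl R K0 op i).2) k (by linarith) (fun i _ v hv => ⟨(hOR i v hv).1, (hOR i v hv).2.1⟩)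
  obtain ⟨Xb, hXb1, hXb2, hXb3, hXb4⟩ := exists_top (5 * W) W δ
    (fun i => (expl R K0 op i).2) k (by linarith) (fun i _ v hv => ⟨(hOR i v hv).1, (hOR i v hv).2.1⟩)
  refine ⟨Xt, Xb, hXt1, hXt2, hXb1, hXb2, ?_⟩
  intro i hik v hv u hu z hz
  by_contra hne
  set K : Finset (ℤ × ℤ) := (expl R K0 op k).1 with hK
  set E : Finset (ℤ × ℤ) := (rect 1 (7 * W - 1) 1 (W - 1) \ K) \
    (rect Xt Xt (W - δ + 1) (W - 1) ∪ rect Xb Xb 1 (δ - 1)) with hE
  have huE : u ∈ E := by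
    by_contra h
    exact hne ((green_basic E).2.1 z u (Or.inr h))
  have hEmem : ∀ x, x ∈ E ↔ ((1 ≤ x.1 ∧ x.1 ≤ 7 * W - 1 ∧ 1 ≤ x.2 ∧ x.2 ≤ W - 1) ∧ x ∉ K) ∧
      ¬ ((Xt ≤ x.1 ∧ x.1 ≤ Xt ∧ W - δ + 1 ≤ x.2 ∧ x.2 ≤ W - 1) ∨
        (Xb ≤ x.1 ∧ x.1 ≤ Xb ∧ 1 ≤ x.2 ∧ x.2 ≤ δ - 1)) := by
    intro x
    rw [hE, Finset.mem_sdiff, Finset.mem_sdiff, Finset.mem_union, mem_rect, mem_rect, mem_rect]
  have hKmem : ∀ x ∈ K, W ≤ x.1 ∧ x.1 ≤ 5 * W ∧ δ ≤ x.2 ∧ x.2 ≤ W - δ := by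
    intro x hx
    have := (hmon0 k).2.1 hx
    rw [hR, mem_rect] at this
    exact this
  obtain ⟨⟨huD, huK⟩, huS⟩ := (hEmem u).1 huE
  have huR : u ∉ R := fun h => huK (hexp i k hik v hv u hu h)
  rw [hR, mem_rect] at huR
  have hvR := hOR i v hv
  have hv5 : v.1 ≠ 5 * W := hno i hik.le v hv
  have hzm := (mem_rect.1 hz)
  -- the three positions of `u`
  have hpos : u.1 = W - 1 ∨ (u.2 = W - δ + 1 ∧ u.1 < Xt) ∨ (u.2 = δ - 1 ∧ u.1 < Xb) := by
    unfold nbrs at hu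
    simp only [Finset.mem_insert, Finset.mem_singleton] at hu
    rcases hu with rfl | rfl | rfl | rfl
    · exfalso
      apply huR
      dsimp only
      have : v.1 < 5 * W := lt_of_le_of_ne hvR.2.1 hv5
      exact ⟨by linarith [hvR.1], by omega, hvR.2.2.1, hvR.2.2.2⟩
    · left
      dsimp only at huR ⊢
      by_contra hcon
      exact huR ⟨by omega, by linarith [hvR.2.1], hvR.2.2.1, hvR.2.2.2⟩
    · right; left
      dsimp only at huR huS huD ⊢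
      have h2 : v.2 = W - δ := by
        by_contra hcon
        exact huR ⟨hvR.1, hvR.2.1, by linarith [hvR.2.2.1], by omega⟩
      have h3 : v.1 ≤ Xt := hXt4 i hik v hv h2
      refine ⟨by rw [h2], lt_of_le_of_ne h3 ?_⟩
      intro h4
      apply huS
      left
      exact ⟨h4.ge, h4.le, by rw [h2], huD.2.2.2⟩
    · right; right
      dsimp only at huR huS huD ⊢
      have h2 : v.2 = δ := by
        by_contra hcon
        exact huR ⟨hvR.1, hvR.2.1, by omega, by linarith [hvR.2.2.2]⟩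
      have h3 : v.1 ≤ Xb := hXb4 i hik v hv h2
      refine ⟨by rw [h2], lt_of_le_of_ne h3 ?_⟩
      intro h4
      apply huS
      right
      exact ⟨h4.ge, h4.le, huD.2.2.1, by rw [h2]⟩
  -- the sets
  let SQ : ℤ × ℤ → Prop := fun x => W ≤ x.1 ∧ x.1 ≤ 5 * W ∧
    (x ∈ K ∨ (x.1 = Xt ∧ W - δ + 1 ≤ x.2 ∧ x.2 ≤ W - 1) ∨ (x.1 = Xb ∧ 1 ≤ x.2 ∧ x.2 ≤ δ - 1))
  let SP : ℤ × ℤ → Prop := fun x => 1 ≤ x.2 ∧ x.2 ≤ W - 1 ∧ ¬ SQ x
  -- the vertical walk
  have hK0K : ∀ x ∈ K0, x ∈ K := fun x hx => (hmon0 k).1 hx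
  have hSK : ∀ x ∈ K, SQ x := fun x hx => ⟨(hKmem x hx).1, (hKmem x hx).2.1, Or.inl hx⟩
  have hcol : ∀ y y', δ ≤ y → y ≤ W - δ → δ ≤ y' → y' ≤ W - δ → Conn SQ (W, y) (W, y') := by
    intro y y' h1 h2 h3 h4
    refine (conn_ver' W y y' δ (W - δ) h1 h2 h3 h4).mono fun x hx => hSK x (hK0K x ?_)
    rw [hK0, mem_rect]
    exact ⟨hx.1.ge, hx.1.le, hx.2.1, hx.2.2⟩
  have hreach : ∀ j < k, ∀ x ∈ (expl R K0 op j).2, Conn SQ (W, δ) x ∧ x ∈ K := by
    intro j hj x hx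
    obtain ⟨a, ha, p, -, hp⟩ := hwalk j x hx
    have ha' : W ≤ a.1 ∧ a.1 ≤ W ∧ δ ≤ a.2 ∧ a.2 ≤ W - δ := by
      have h := ha
      rw [hK0, mem_rect] at h
      exact h
    have ha1 : a = (W, a.2) := Prod.ext (le_antisymm ha'.2.1 ha'.1) rfl
    have h1 : Conn SQ (W, δ) a := by
      rw [ha1]
      exact hcol δ a.2 le_rfl (by linarith) ha'.2.2.1 ha'.2.2.2
    have h2 : Conn SQ a x := ⟨p, fun y hy => hSK y (hmon j k hj.le (hp y hy).1)⟩
    exact ⟨h1.trans h2, hmon j k hj.le ((hO j).1 hx)⟩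
  have hWd : (W, δ) ∈ K := hK0K _ (by rw [hK0, mem_rect]; exact ⟨le_rfl, le_rfl, le_rfl, by dsimp only; linarith⟩)
  have hWd' : (W, W - δ) ∈ K :=
    hK0K _ (by rw [hK0, mem_rect]; exact ⟨le_rfl, le_rfl, by dsimp only; linarith, le_rfl⟩)
  have hb : Conn SQ (W, δ) (Xb, δ) ∧ (Xb, δ) ∈ K := by
    rcases hXb3 with h | ⟨j, hj, hx⟩
    · rw [h]
      exact ⟨hcol δ δ le_rfl (by linarith) le_rfl (by linarith), hWd⟩
    · exact hreach j hj _ hx
  have ht : Conn SQ (W, δ) (Xt, W - δ) ∧ (Xt, W - δ) ∈ K := by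
    rcases hXt3 with h | ⟨j, hj, hx⟩
    · rw [h]
      exact ⟨hcol δ (W - δ) le_rfl (by linarith) (by linarith) le_rfl, hWd'⟩
    · exact hreach j hj _ hx
  have hq1 : Conn SQ (Xb, 1) (Xb, δ) := by
    refine (conn_ver Xb 1 δ hdZ).mono fun x hx => ?_
    refine ⟨by rw [hx.1]; exact hXb1, by rw [hx.1]; exact hXb2, ?_⟩
    rcases eq_or_lt_of_le hx.2.2 with h | h
    · left
      have : x = (Xb, δ) := Prod.ext hx.1 h
      rw [this]
      exact hb.2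
    · right; right
      exact ⟨hx.1, hx.2.1, by omega⟩
  have hq2 : Conn SQ (Xt, W - δ) (Xt, W - 1) := by
    refine (conn_ver Xt (W - δ) (W - 1) (by linarith)).mono fun x hx => ?_
    refine ⟨by rw [hx.1]; exact hXt1, by rw [hx.1]; exact hXt2, ?_⟩
    rcases eq_or_lt_of_le hx.2.1 with h | h
    · left
      have : x = (Xt, W - δ) := Prod.ext hx.1 h.symm
      rw [this]
      exact ht.2
    · right; left
      exact ⟨hx.1, by omega, hx.2.2⟩
  have hQ : Conn SQ (Xb, 1) (Xt, W - 1) := ((hq1.trans hb.1.symm).trans ht.1).trans hq2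
  -- the horizontal walk
  have hp1 : Conn SP (1, u.2) (u.1, u.2) := by
    refine (conn_hor 1 u.1 u.2 huD.1).mono fun x hx => ?_
    refine ⟨by rw [hx.2.2]; exact huD.2.2.1, by rw [hx.2.2]; exact huD.2.2.2, ?_⟩
    rintro ⟨hs1, hs2, hs3⟩
    rcases hpos with h | h | h
    · have := hx.2.1
      omega
    · rcases hs3 with h3 | h3 | h3
      · have := (hKmem x h3).2.2.2
        have := hx.2.2
        omega
      · have := hx.2.1
        omega
      · have := hx.2.2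
        omega
    · rcases hs3 with h3 | h3 | h3
      · have := (hKmem x h3).2.2.1
        have := hx.2.2
        omega
      · have := hx.2.2
        omega
      · have := hx.2.1
        omega
  have hp2 : Conn SP u z := by
    obtain ⟨p, hp⟩ := green_conn E z u hne
    refine Conn.symm ⟨p, fun x hx => ?_⟩
    obtain ⟨⟨h1, h2⟩, h3⟩ := (hEmem x).1 (hp x hx)
    refine ⟨h1.2.2.1, h1.2.2.2, ?_⟩
    rintro ⟨-, -, hs3⟩
    rcases hs3 with h4 | h4 | h4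
    · exact h2 h4
    · exact h3 (Or.inl ⟨h4.1.ge, h4.1.le, h4.2.1, h4.2.2⟩)
    · exact h3 (Or.inr ⟨h4.1.ge, h4.1.le, h4.2.1, h4.2.2⟩)
  have hp3 : Conn SP (z.1, z.2) (7 * W - 1, z.2) := by
    refine (conn_hor z.1 (7 * W - 1) z.2 (by linarith [hzm.2.1])).mono fun x hx => ?_
    refine ⟨by rw [hx.2.2]; exact hzm.2.2.1, by rw [hx.2.2]; exact hzm.2.2.2, ?_⟩
    rintro ⟨-, hs2, -⟩
    have := hx.1
    have := hzm.1
    omega
  obtain ⟨p, hp⟩ : Conn SP (1, u.2) (7 * W - 1, z.2) := (hp1.trans hp2).trans hp3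
  obtain ⟨q, hq⟩ := hQ
  obtain ⟨x, hx1, hx2⟩ := crossing W (5 * W) 1 (W - 1) (1, u.2) (7 * W - 1, z.2) (Xb, 1) (Xt, W - 1) p q
    (fun y hy => ⟨(hp y hy).1, (hp y hy).2.1⟩) (by dsimp only; linarith) (by dsimp only; linarith)
    (fun y hy => ⟨(hq y hy).1, (hq y hy).2.1⟩) le_rfl le_rfl
  exact (hp x hx1).2.2 (hq x hx2)

end H941.expl_disconnect
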