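import Pool.Agent.KS6_63.GFF.Defs3

open MeasureTheory ProbabilityTheory

namespace H941.gauss_tail

theorem _root_.H941.gauss_tail {ι : Type} [Fintype ι] [DecidableEq ι] (Γ : Matrix ι ι ℝ) (hΓ : Γ.PosSemidef)
    (ρ : ι → ℝ) (v a : ℝ) (hv : 0 < v) (ha : 0 ≤ a) (h : ∑ i, ∑ j, ρ i * Γ i j * ρ j ≤ v) :
    multivariateGaussian (0 : EuclideanSpace ℝ ι) Γ {x | a ≤ ∑ i, ρ i * x i} ≤
      ENNReal.ofReal (Real.exp (-(a ^ 2 / (2 * v)))) := by
  obtain ⟨P, hP⟩ : ∃ P, P = multivariateGaussian (0 : EuclideanSpace ℝ ι) Γ := ⟨_, rfl⟩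
  have hG : IsGaussian P := by rw [hP]; infer_instance
  obtain ⟨r, hr⟩ : ∃ r : EuclideanSpace ℝ ι, r = WithLp.toLp 2 ρ := ⟨_, rfl⟩
  have hL : ∀ x : EuclideanSpace ℝ ι, innerSL ℝ r x = ∑ i, ρ i * x i := by
    intro x
    rw [innerSL_apply_apply, hr, PiLp.inner_apply]
    refine Finset.sum_congr rfl fun i _ => ?_
    simp [mul_comm]
  have hmap : P.map (innerSL ℝ r) = gaussianReal (∫ x, innerSL ℝ r x ∂P)
      (Var[innerSL ℝ r; P]).toNNReal := IsGaussian.map_eq_gaussianReal _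
  have hmean : ∫ x, innerSL ℝ r x ∂P = 0 := by
    rw [ContinuousLinearMap.integral_comp_comm _ IsGaussian.integrable_fun_id, hP,
      integral_id_multivariateGaussian, map_zero]
  have hvar : Var[innerSL ℝ r; P] = ∑ i, ∑ j, ρ i * Γ i j * ρ j := by
    have h1 : Var[innerSL ℝ r; P] = covarianceBilin P r r := by
      rw [covarianceBilin_apply_eq_cov IsGaussian.memLp_two_id, covariance_self]
      · rfl
      · exact (innerSL ℝ r).continuous.aemeasurable
    rw [h1, hP, covarianceBilin_multivariateGaussian hΓ, hr]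
    simp only [dotProduct, Matrix.mulVec, Finset.mul_sum]
    refine Finset.sum_congr rfl fun i _ => Finset.sum_congr rfl fun j _ => ?_
    ring
  have hs0 : 0 ≤ Var[innerSL ℝ r; P] := variance_nonneg _ _
  have hsv : Var[innerSL ℝ r; P] ≤ v := hvar.trans_le h
  have ht : 0 ≤ a / v := by positivity
  have hint : Integrable (fun x => Real.exp (a / v * innerSL ℝ r x)) P := by
    have h1 := integrable_exp_mul_gaussianReal (μ := ∫ x, innerSL ℝ r x ∂P)
      (v := (Var[innerSL ℝ r; P]).toNNReal) (a / v)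
    rw [← hmap] at h1
    exact (integrable_map_measure h1.aestronglyMeasurable
      (innerSL ℝ r).continuous.aemeasurable).mp h1
  have hch := measure_ge_le_exp_mul_mgf (X := fun x => innerSL ℝ r x) a ht hint
  have hm : mgf (fun x => innerSL ℝ r x) P (a / v) = Real.exp ((∫ x, innerSL ℝ r x ∂P) * (a / v) +
      ((Var[innerSL ℝ r; P]).toNNReal : ℝ) * (a / v) ^ 2 / 2) := mgf_gaussianReal hmap (a / v)
  rw [hm, hmean, ← Real.exp_add, Real.coe_toNNReal _ hs0] at hch
  have hle : -(a / v) * a + (0 * (a / v) + Var[innerSL ℝ r; P] * (a / v) ^ 2 / 2) ≤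
      -(a ^ 2 / (2 * v)) := by
    have h1 : Var[innerSL ℝ r; P] * (a / v) ^ 2 / 2 ≤ v * (a / v) ^ 2 / 2 := by
      have := mul_le_mul_of_nonneg_right hsv (sq_nonneg (a / v))
      linarith
    have h2 : v * (a / v) ^ 2 / 2 = a ^ 2 / (2 * v) := by field_simp
    have h3 : -(a / v) * a = -(2 * (a ^ 2 / (2 * v))) := by field_simp
    rw [h3]
    linarith
  have hfin := hch.trans (Real.exp_le_exp.mpr hle)
  have hset : {x : EuclideanSpace ℝ ι | a ≤ ∑ i, ρ i * x i} = {x | a ≤ innerSL ℝ r x} := by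
    ext x
    simp only [Set.mem_ofPred_eq, hL]
  rw [← hP, hset]
  rw [measureReal_def] at hfin
  exact (ENNReal.le_ofReal_iff_toReal_le (measure_ne_top _ _) (Real.exp_pos _).le).mpr hfin

end H941.gauss_tail
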