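import Pool.Agent.KS6_63.GFF.Defs3

open MeasureTheory ProbabilityTheory

namespace H941.green_place

theorem place_inj (o : Bool) (t : ℤ × ℤ) : Function.Injective (place o t) := by
  intro a b h
  cases o <;> simp only [place, Prod.mk.injEq, if_true, Bool.false_eq_true, if_false] at h <;>
    exact Prod.ext (by omega) (by omega)

theorem nbrs_place (o : Bool) (t u : ℤ × ℤ) : nbrs (place o t u) = (nbrs u).image (place o t) := by
  ext ⟨a, b⟩
  cases o
  · simp only [nbrs, place, Finset.mem_image, Finset.mem_insert, Finset.mem_singleton,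
      Prod.mk.injEq, Bool.false_eq_true, if_false]
    constructor
    · rintro (⟨h1, h2⟩ | ⟨h1, h2⟩ | ⟨h1, h2⟩ | ⟨h1, h2⟩)
      · exact ⟨(u.1, u.2 + 1), by simp, by simp; omega⟩
      · exact ⟨(u.1, u.2 - 1), by simp, by simp; omega⟩
      · exact ⟨(u.1 + 1, u.2), by simp, by simp; omega⟩
      · exact ⟨(u.1 - 1, u.2), by simp, by simp; omega⟩
    · rintro ⟨⟨c, d⟩, (⟨h1, h2⟩ | ⟨h1, h2⟩ | ⟨h1, h2⟩ | ⟨h1, h2⟩), h3, h4⟩ <;> simp at h3 h4 <;> omega
  · simp only [nbrs, place, Finset.mem_image, Finset.mem_insert, Finset.mem_singleton,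
      Prod.mk.injEq, if_true]
    constructor
    · rintro (⟨h1, h2⟩ | ⟨h1, h2⟩ | ⟨h1, h2⟩ | ⟨h1, h2⟩)
      · exact ⟨(u.1 + 1, u.2), by simp, by simp; omega⟩
      · exact ⟨(u.1 - 1, u.2), by simp, by simp; omega⟩
      · exact ⟨(u.1, u.2 + 1), by simp, by simp; omega⟩
      · exact ⟨(u.1, u.2 - 1), by simp, by simp; omega⟩
    · rintro ⟨⟨c, d⟩, (⟨h1, h2⟩ | ⟨h1, h2⟩ | ⟨h1, h2⟩ | ⟨h1, h2⟩), h3, h4⟩ <;> simp at h3 h4 <;> omega

theorem walkProb_place (o : Bool) (t : ℤ × ℤ) (D : Finset (ℤ × ℤ)) (n : ℕ) :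
    ∀ u v : ℤ × ℤ, walkProb (D.image (place o t)) n (place o t u) (place o t v) =
      walkProb D n u v := by
  induction n with
  | zero =>
    intro u v
    simp only [walkProb, (place_inj o t).mem_finset_image, (place_inj o t).eq_iff]
  | succ n ih =>
    intro u v
    simp only [walkProb, (place_inj o t).mem_finset_image]
    rw [nbrs_place, Finset.sum_image fun a _ b _ h => place_inj o t h]
    simp only [ih]

theorem _root_.H941.green_place (o : Bool) (t : ℤ × ℤ) (D : Finset (ℤ × ℤ)) (u v : ℤ × ℤ) :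
    green (D.image (place o t)) (place o t u) (place o t v) = green D u v := by
  unfold green
  exact tsum_congr fun n => walkProb_place o t D n u v

end H941.green_place
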