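import Pool.Agent.KS6_63.GFF.Defs3

open MeasureTheory ProbabilityTheory

namespace H941.harm_grad

theorem hg_sum (h : ℤ × ℤ → ℝ) (u : ℤ × ℤ) : ∑ z' ∈ nbrs u, h z' =
    h (u.1 + 1, u.2) + h (u.1 - 1, u.2) + h (u.1, u.2 + 1) + h (u.1, u.2 - 1) := by
  unfold nbrs
  rw [Finset.sum_insert, Finset.sum_insert, Finset.sum_insert, Finset.sum_singleton]
  · ring
  · simp only [Finset.mem_singleton, Prod.mk.injEq, not_and]
    intro _ h2
    omega
  · simp only [Finset.mem_insert, Finset.mem_singleton, Prod.mk.injEq, not_or, not_and]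
    exact ⟨fun h2 => by omega, fun h2 => by omega⟩
  · simp only [Finset.mem_insert, Finset.mem_singleton, Prod.mk.injEq, not_or, not_and]
    exact ⟨fun h2 => by omega, fun h2 => by omega, fun h2 => by omega⟩

/-- one-sided estimate in one direction -/
theorem hg_core (f : ℤ × ℤ → ℝ) (a b : ℤ) (r : ℕ) (hr : 1 ≤ r) (M : ℝ)
    (hharm : ∀ z : ℤ × ℤ, |z.1 - a| ≤ r → |z.2 - b| ≤ r → f z = (1 / 4) *
      (f (z.1 + 1, z.2) + f (z.1 - 1, z.2) + f (z.1, z.2 + 1) + f (z.1, z.2 - 1)))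
    (hM : ∀ z : ℤ × ℤ, |z.1 - a| ≤ r + 1 → |z.2 - b| ≤ r + 1 → |f z| ≤ M) :
    f (a, b) - f (a + 1, b) ≤ 5 * M / r := by
  have hr0 : (1:ℝ) ≤ r := by exact_mod_cast hr
  have hrp : (0:ℝ) < r := by linarith
  have hrz : (1:ℤ) ≤ r := by exact_mod_cast hr
  have hM0 : 0 ≤ M := le_trans (abs_nonneg _) (hM (a, b) (by simp; omega) (by simp; omega))
  obtain ⟨q, hq⟩ : ∃ q : ℝ, q = 2 * M / (r:ℝ) ^ 2 := ⟨_, rfl⟩
  have hq0 : 0 ≤ q := by rw [hq]; positivity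
  have hqr : q * (r:ℝ) ^ 2 = 2 * M := by rw [hq]; field_simp
  let G : ℤ × ℤ → ℝ := fun z => f z - f (2 * a + 1 - z.1, z.2)
  let B : ℤ × ℤ → ℝ := fun z => q * (((z.2:ℝ) - b) ^ 2 - ((a:ℝ) + 1 / 2 - z.1) ^ 2 +
    2 * ((r:ℝ) + 1) * ((a:ℝ) + 1 / 2 - z.1))
  let D : ℤ × ℤ → ℝ := fun z => G z - B z
  let S : Finset (ℤ × ℤ) := (Finset.Icc (a - r) a) ×ˢ (Finset.Icc (b - (r + 1)) (b + (r + 1)))
  have memS : ∀ z : ℤ × ℤ, z ∈ S ↔ (a - r ≤ z.1 ∧ z.1 ≤ a) ∧ (b - (r + 1) ≤ z.2 ∧ z.2 ≤ b + (r + 1)) := by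
    intro z; simp only [S, Finset.mem_product, Finset.mem_Icc]
  have hGle : ∀ z ∈ S, G z ≤ 2 * M := by
    intro z hz
    obtain ⟨⟨h1, h2⟩, h3, h4⟩ := (memS z).1 hz
    have e1 := hM z (abs_le.2 ⟨by omega, by omega⟩) (abs_le.2 ⟨by omega, by omega⟩)
    have e2 := hM (2 * a + 1 - z.1, z.2) (abs_le.2 ⟨by simp; omega, by simp; omega⟩)
      (abs_le.2 ⟨by simp; omega, by simp; omega⟩)
    have := (abs_le.1 e1).2
    have := (abs_le.1 e2).1
    show f z - f (2 * a + 1 - z.1, z.2) ≤ 2 * M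
    linarith
  -- the boundary
  have hbd : ∀ z ∈ S, (z.1 = a - r ∨ z.2 = b + (r + 1) ∨ z.2 = b - (r + 1)) → D z ≤ 0 := by
    intro z hz hb
    have h0 := hGle z hz
    obtain ⟨⟨h1, h2⟩, h3, h4⟩ := (memS z).1 hz
    have h1' : (a:ℝ) - r ≤ z.1 := by exact_mod_cast h1
    have h2' : (z.1:ℝ) ≤ a := by exact_mod_cast h2
    have hB : 2 * M ≤ B z := by
      rw [← hqr]
      apply mul_le_mul_of_nonneg_left _ hq0
      rcases hb with h | h | h
      · have : (z.1:ℝ) = a - r := by exact_mod_cast h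
        rw [this]
        nlinarith [sq_nonneg ((z.2:ℝ) - b)]
      · have : (z.2:ℝ) = b + (r + 1) := by exact_mod_cast h
        rw [this]
        nlinarith [mul_nonneg (show (0:ℝ) ≤ (a:ℝ) + 1 / 2 - z.1 by linarith)
          (show (0:ℝ) ≤ 2 * ((r:ℝ) + 1) - ((a:ℝ) + 1 / 2 - z.1) by linarith)]
      · have : (z.2:ℝ) = b - (r + 1) := by exact_mod_cast h
        rw [this]
        nlinarith [mul_nonneg (show (0:ℝ) ≤ (a:ℝ) + 1 / 2 - z.1 by linarith)
          (show (0:ℝ) ≤ 2 * ((r:ℝ) + 1) - ((a:ℝ) + 1 / 2 - z.1) by linarith)]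
    show G z - B z ≤ 0
    linarith
  -- harmonicity
  have hD : ∀ z : ℤ × ℤ, a - r + 1 ≤ z.1 → z.1 ≤ a → |z.2 - b| ≤ r →
      D z = (1 / 4) * (D (z.1 + 1, z.2) + D (z.1 - 1, z.2) + D (z.1, z.2 + 1) + D (z.1, z.2 - 1)) := by
    intro z h1 h2 h3
    have e1 := hharm z (abs_le.2 ⟨by omega, by omega⟩) h3
    have e2 := hharm (2 * a + 1 - z.1, z.2) (abs_le.2 ⟨by simp; omega, by simp; omega⟩) h3
    simp only at e2
    show (f z - f (2 * a + 1 - z.1, z.2)) - B z = (1 / 4) * (((f (z.1 + 1, z.2) - f (2 * a + 1 - (z.1 + 1), z.2)) - B (z.1 + 1, z.2)) +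
      ((f (z.1 - 1, z.2) - f (2 * a + 1 - (z.1 - 1), z.2)) - B (z.1 - 1, z.2)) +
      ((f (z.1, z.2 + 1) - f (2 * a + 1 - z.1, z.2 + 1)) - B (z.1, z.2 + 1)) +
      ((f (z.1, z.2 - 1) - f (2 * a + 1 - z.1, z.2 - 1)) - B (z.1, z.2 - 1)))
    rw [show 2 * a + 1 - (z.1 + 1) = 2 * a + 1 - z.1 - 1 by ring,
      show 2 * a + 1 - (z.1 - 1) = 2 * a + 1 - z.1 + 1 by ring]
    simp only [B]
    push_cast
    linear_combination e1 - e2
  have hmain : D (a, b) ≤ q / 4 := by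
    by_contra hcon
    rw [not_le] at hcon
    have hxS : (a, b) ∈ S := (memS _).2 ⟨⟨by simp, le_refl _⟩, by simp; omega, by simp; omega⟩
    obtain ⟨w0, hw0, hw0m⟩ := Finset.exists_max_image S D ⟨_, hxS⟩
    obtain ⟨w, hw, hwm⟩ := Finset.exists_min_image (S.filter (fun z => D z = D w0)) (fun z => z.1)
      ⟨w0, Finset.mem_filter.2 ⟨hw0, rfl⟩⟩
    obtain ⟨hwS, hwD⟩ := Finset.mem_filter.1 hw
    have hmax : ∀ z ∈ S, D z ≤ D w := fun z hz => by rw [hwD]; exact hw0m z hz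
    have hpos : q / 4 < D w := lt_of_lt_of_le hcon (hmax _ hxS)
    have hpos0 : 0 < D w := lt_of_le_of_lt (by positivity) hpos
    have hint : ¬ (w.1 = a - r ∨ w.2 = b + (r + 1) ∨ w.2 = b - (r + 1)) := fun h => by
      have := hbd w hwS h
      linarith
    rw [not_or, not_or] at hint
    obtain ⟨⟨h1, h2⟩, h3, h4⟩ := (memS w).1 hwS
    have h5 := hD w (by omega) h2 (abs_le.2 ⟨by omega, by omega⟩)
    have hl : (w.1 - 1, w.2) ∈ S := (memS _).2 ⟨⟨by simp; omega, by simp; omega⟩, h3, h4⟩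
    have hu : (w.1, w.2 + 1) ∈ S := (memS _).2 ⟨⟨h1, h2⟩, by simp; omega, by simp; omega⟩
    have hd : (w.1, w.2 - 1) ∈ S := (memS _).2 ⟨⟨h1, h2⟩, by simp; omega, by simp; omega⟩
    have ml := hmax _ hl
    have mu := hmax _ hu
    have md := hmax _ hd
    rcases lt_or_eq_of_le h2 with h | h
    · have hr' : (w.1 + 1, w.2) ∈ S := (memS _).2 ⟨⟨by simp; omega, by simp; omega⟩, h3, h4⟩
      have mr := hmax _ hr'
      have hlt : D (w.1 - 1, w.2) < D w := by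
        refine lt_of_le_of_ne ml (fun heq => ?_)
        have := hwm (w.1 - 1, w.2) (Finset.mem_filter.2 ⟨hl, by rw [heq, hwD]⟩)
        simp at this
      linarith
    · have k1 : D w ≤ D (w.1 + 1, w.2) := by linarith
      have k2 : D (w.1 + 1, w.2) = - G w - B w + 2 * q * ((r:ℝ) + 1) := by
        show (f (w.1 + 1, w.2) - f (2 * a + 1 - (w.1 + 1), w.2)) - B (w.1 + 1, w.2) =
          - (f w - f (2 * a + 1 - w.1, w.2)) - B w + 2 * q * ((r:ℝ) + 1)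
        have e1 : ((w.1 + 1, w.2) : ℤ × ℤ) = (2 * a + 1 - w.1, w.2) := by ext <;> simp <;> omega
        have e2 : ((2 * a + 1 - (w.1 + 1), w.2) : ℤ × ℤ) = w := by ext <;> simp <;> omega
        have e3 : (w.1 : ℝ) = a := by exact_mod_cast h
        rw [e2, ← e1]
        simp only [B]
        push_cast
        rw [e3]
        ring
      have k3 : D w = G w - B w := rfl
      have k4 : B w = q * ((w.2:ℝ) - b) ^ 2 - q / 4 + q * ((r:ℝ) + 1) := by
        have e3 : (w.1 : ℝ) = a := by exact_mod_cast h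
        simp only [B]
        rw [e3]
        ring
      have k5 : 0 ≤ q * ((w.2:ℝ) - b) ^ 2 := mul_nonneg hq0 (sq_nonneg _)
      rw [k2] at k1
      linarith
  have hfin : G (a, b) ≤ q * ((r:ℝ) + 3 / 4) + q / 4 := by
    have e1 : D (a, b) = G (a, b) - B (a, b) := rfl
    have e2 : B (a, b) = q * ((r:ℝ) + 3 / 4) := by
      simp only [B]
      ring
    rw [e1, e2] at hmain
    linarith
  have hGx : G (a, b) = f (a, b) - f (a + 1, b) := by
    simp only [G]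
    rw [show 2 * a + 1 - a = a + 1 by ring]
  rw [← hGx]
  refine hfin.trans ?_
  rw [le_div_iff₀ hrp]
  have : q * ((r:ℝ) + 3 / 4) + q / 4 = q * (r + 1) := by ring
  rw [this]
  nlinarith [mul_nonneg hq0 (show (0:ℝ) ≤ r * (r - 1) by nlinarith)]

theorem _root_.H941.harm_grad (f : ℤ × ℤ → ℝ) (x x' : ℤ × ℤ) (hx : x' ∈ nbrs x) (r : ℕ) (hr : 1 ≤ r) (M : ℝ)
    (hharm : ∀ z : ℤ × ℤ, |z.1 - x.1| ≤ r → |z.2 - x.2| ≤ r → f z = (1 / 4) * ∑ z' ∈ nbrs z, f z')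
    (hM : ∀ z : ℤ × ℤ, |z.1 - x.1| ≤ r + 1 → |z.2 - x.2| ≤ r + 1 → |f z| ≤ M) :
    |f x' - f x| ≤ 5 * M / r := by
  obtain ⟨a, b⟩ := x
  simp only at hharm hM
  have hh : ∀ z : ℤ × ℤ, |z.1 - a| ≤ r → |z.2 - b| ≤ r → f z = (1 / 4) *
      (f (z.1 + 1, z.2) + f (z.1 - 1, z.2) + f (z.1, z.2 + 1) + f (z.1, z.2 - 1)) := by
    intro z h1 h2
    rw [hharm z h1 h2, hg_sum]
  -- both signs from a one-sided statement
  have two : ∀ (g : ℤ × ℤ → ℝ) (a b : ℤ), (∀ z : ℤ × ℤ, |z.1 - a| ≤ r → |z.2 - b| ≤ r → g z = (1 / 4) *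
      (g (z.1 + 1, z.2) + g (z.1 - 1, z.2) + g (z.1, z.2 + 1) + g (z.1, z.2 - 1))) →
      (∀ z : ℤ × ℤ, |z.1 - a| ≤ r + 1 → |z.2 - b| ≤ r + 1 → |g z| ≤ M) →
      |g (a + 1, b) - g (a, b)| ≤ 5 * M / r := by
    intro g a b h1 h2
    have e1 := hg_core g a b r hr M h1 h2
    have e2 := hg_core (fun z => - g z) a b r hr M (fun z h3 h4 => by
      show - g z = _
      rw [h1 z h3 h4]; ring) (fun z h3 h4 => by rw [abs_neg]; exact h2 z h3 h4)
    rw [abs_le]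
    constructor <;> linarith
  simp only [nbrs, Finset.mem_insert, Finset.mem_singleton] at hx
  rcases hx with rfl | rfl | rfl | rfl
  · exact two f a b hh hM
  · have := two (fun z => f (-z.1, z.2)) (-a) b (fun z h1 h2 => by
      have h3 := hh (-z.1, z.2) (by
        show |-z.1 - a| ≤ r
        rw [show -z.1 - a = -(z.1 - -a) by ring, abs_neg]; exact h1) h2
      simp only at h3 ⊢
      rw [h3, show -(z.1 + 1) = -z.1 - 1 by ring, show -(z.1 - 1) = -z.1 + 1 by ring]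
      ring) (fun z h1 h2 => hM (-z.1, z.2) (by
        show |-z.1 - a| ≤ r + 1
        rw [show -z.1 - a = -(z.1 - -a) by ring, abs_neg]; exact h1) h2)
    rw [show (a - 1, b) = ((-(-a + 1), b) : ℤ × ℤ) by rw [show -(-a + 1) = a - 1 by ring], show (a, b) = ((- -a, b) : ℤ × ℤ) by rw [neg_neg]]
    exact this
  · have := two (fun z => f (z.2, z.1)) b a (fun z h1 h2 => by
      have h3 := hh (z.2, z.1) h2 h1
      simp only at h3 ⊢
      rw [h3]
      ring) (fun z h1 h2 => hM (z.2, z.1) h2 h1)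
    exact this
  · have := two (fun z => f (z.2, -z.1)) (-b) a (fun z h1 h2 => by
      have h3 := hh (z.2, -z.1) h2 (by
        show |-z.1 - b| ≤ r
        rw [show -z.1 - b = -(z.1 - -b) by ring, abs_neg]; exact h1)
      simp only at h3 ⊢
      rw [h3, show -(z.1 + 1) = -z.1 - 1 by ring, show -(z.1 - 1) = -z.1 + 1 by ring]
      ring) (fun z h1 h2 => hM (z.2, -z.1) h2 (by
        show |-z.1 - b| ≤ r + 1
        rw [show -z.1 - b = -(z.1 - -b) by ring, abs_neg]; exact h1))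
    rw [show (a, b - 1) = ((a, -(-b + 1)) : ℤ × ℤ) by rw [show -(-b + 1) = b - 1 by ring], show (a, b) = ((a, - -b) : ℤ × ℤ) by rw [neg_neg]]
    exact this

end H941.harm_grad
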