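import Pool.Agent.KS6_63.GFF.Defs3
import Pool.Agent.KS6_63.GFF.G1

open MeasureTheory ProbabilityTheory

namespace H941.law_split

theorem law_two {ι : Type} [Fintype ι] [DecidableEq ι] (A B : Matrix ι ι ℝ) (hA : A.PosSemidef)
    (hB : B.PosSemidef) :
    ((multivariateGaussian (0 : EuclideanSpace ℝ ι) A).prod
      (multivariateGaussian (0 : EuclideanSpace ℝ ι) B)).map (fun p => p.1 + p.2) =
      multivariateGaussian (0 : EuclideanSpace ℝ ι) (A + B) := by
  have h1 := law_sum (ι := ι) (n := 2) ![A, B] (by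
    intro j; fin_cases j
    · exact hA
    · exact hB)
  rw [Fin.sum_univ_two] at h1
  have h2 := (measurePreserving_piFinTwo
    (fun j : Fin 2 => multivariateGaussian (0 : EuclideanSpace ℝ ι) (![A, B] j))).map_eq
  have h3 : ((multivariateGaussian (0 : EuclideanSpace ℝ ι) A).prod
      (multivariateGaussian (0 : EuclideanSpace ℝ ι) B)) =
      ((multivariateGaussian (0 : EuclideanSpace ℝ ι) (![A, B] 0)).prod
      (multivariateGaussian (0 : EuclideanSpace ℝ ι) (![A, B] 1))) := rfl
  rw [h3, ← h2, Measure.map_map (by fun_prop) (MeasurableEquiv.measurable _)]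
  have h4 : ((fun p : EuclideanSpace ℝ ι × EuclideanSpace ℝ ι => p.1 + p.2) ∘
      (MeasurableEquiv.piFinTwo fun _ : Fin 2 => EuclideanSpace ℝ ι)) = fun x => ∑ j, x j := by
    funext x
    simp [Fin.sum_univ_two]
  rw [h4, h1]
  rfl

theorem _root_.H941.law_split {ι : Type} [Fintype ι] [DecidableEq ι] (j : ℕ) (Γ : Fin (j + 1) → Matrix ι ι ℝ)
    (hΓ : ∀ k, (Γ k).PosSemidef) (A B : Matrix ι ι ℝ) (hA : A.PosSemidef) (hB : B.PosSemidef)
    (hlast : Γ (Fin.last j) = A + B) :
    (((Measure.pi (fun k : Fin (j + 1) => multivariateGaussian (0 : EuclideanSpace ℝ ι)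
        (if k = Fin.last j then A else Γ k))).prod
          (multivariateGaussian (0 : EuclideanSpace ℝ ι) B)).map
        (fun (z : (Fin (j + 1) → EuclideanSpace ℝ ι) × EuclideanSpace ℝ ι) (k : Fin (j + 1)) =>
          if k = Fin.last j then z.1 k + z.2 else z.1 k)) =
      Measure.pi (fun k : Fin (j + 1) => multivariateGaussian (0 : EuclideanSpace ℝ ι) (Γ k)) := by
  have hm : Measurable
      (fun (z : (Fin (j + 1) → EuclideanSpace ℝ ι) × EuclideanSpace ℝ ι) (k : Fin (j + 1)) =>
          if k = Fin.last j then z.1 k + z.2 else z.1 k) := by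
    rw [measurable_pi_iff]
    intro k
    by_cases hk : k = Fin.last j
    · simp only [hk, if_true]; fun_prop
    · simp only [hk, if_false]; fun_prop
  symm
  apply Measure.pi_eq
  intro s hs
  have hS : MeasurableSet ((fun (z : (Fin (j + 1) → EuclideanSpace ℝ ι) × EuclideanSpace ℝ ι)
      (k : Fin (j + 1)) => if k = Fin.last j then z.1 k + z.2 else z.1 k) ⁻¹'
        (Set.univ.pi s)) := hm (MeasurableSet.univ_pi hs)
  rw [Measure.map_apply hm (MeasurableSet.univ_pi hs), Measure.prod_apply_symm hS]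
  have h1 : ∀ y : EuclideanSpace ℝ ι,
      (Measure.pi (fun k : Fin (j + 1) => multivariateGaussian (0 : EuclideanSpace ℝ ι)
        (if k = Fin.last j then A else Γ k)))
        ((fun x => (x, y)) ⁻¹' ((fun (z : (Fin (j + 1) → EuclideanSpace ℝ ι) ×
          EuclideanSpace ℝ ι) (k : Fin (j + 1)) =>
            if k = Fin.last j then z.1 k + z.2 else z.1 k) ⁻¹' (Set.univ.pi s))) =
      (∏ k : Fin j, multivariateGaussian (0 : EuclideanSpace ℝ ι) (Γ k.castSucc)
        (s k.castSucc)) *
      multivariateGaussian (0 : EuclideanSpace ℝ ι) A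
        ((fun x => (x, y)) ⁻¹' ((fun p => p.1 + p.2) ⁻¹' (s (Fin.last j)))) := by
    intro y
    have h2 : ((fun x => (x, y)) ⁻¹' ((fun (z : (Fin (j + 1) → EuclideanSpace ℝ ι) ×
          EuclideanSpace ℝ ι) (k : Fin (j + 1)) =>
            if k = Fin.last j then z.1 k + z.2 else z.1 k) ⁻¹' (Set.univ.pi s))) =
        Set.univ.pi (fun k => if k = Fin.last j then (fun x => x + y) ⁻¹' (s k) else s k) := by
      ext x
      simp only [Set.mem_preimage, Set.mem_pi, Set.mem_univ, true_implies]
      refine forall_congr' fun k => ?_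
      by_cases hk : k = Fin.last j
      · simp only [hk, if_true]; rfl
      · simp only [hk, if_false]
    rw [h2, Measure.pi_pi, Fin.prod_univ_castSucc]
    congr 1
    · refine Finset.prod_congr rfl fun k _ => ?_
      have hk : k.castSucc ≠ Fin.last j := (Fin.castSucc_lt_last k).ne
      rw [if_neg hk, if_neg hk]
    · rw [if_pos rfl, if_pos rfl]; rfl
  simp_rw [h1]
  have hm2 : Measurable (fun p : EuclideanSpace ℝ ι × EuclideanSpace ℝ ι => p.1 + p.2) := by
    fun_prop
  rw [lintegral_const_mul _ (measurable_measure_prodMk_right (hm2 (hs _))),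
    ← Measure.prod_apply_symm (hm2 (hs _)), ← Measure.map_apply hm2 (hs _), law_two A B hA hB,
    ← hlast, Fin.prod_univ_castSucc]

end H941.law_split
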