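import Pool.Agent.KS6_63.GFF.Defs3
import Pool.Agent.KS6_63.GFF.K1

open MeasureTheory ProbabilityTheory

namespace H941.pst_near

theorem norm_bsign (b : Bool) : ‖bsign b‖ = 1 := by
  cases b <;> simp [bsign]

/-- one step: from a bound at level i'+1 to a bound at level i' -/
theorem pst_step (δ : ℕ → ℝ) (hδ : ∀ j, 0 ≤ δ j) (hδ' : ∀ j, δ j ≤ 1 / 8) (hanti : Antitone δ)
    (c : ℕ → Fin 64 × Bool) (s : ℂ × ℂ) (i' : ℕ) (z : ℂ) (τ₁ : ℝ) (h0 : 0 ≤ τ₁) (h1 : τ₁ ≤ 1)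
    (hz : ‖z - ((pst δ 0 s c (i' + 1)).1 + (τ₁ : ℂ) * (pst δ 0 s c (i' + 1)).2)‖ ≤
      (60 / 59) * (δ (i' + 1) * ‖(pst δ 0 s c (i' + 1)).2‖)) :
    ∃ τ t : ℝ, 0 ≤ τ ∧ τ ≤ 1 ∧ 0 ≤ t ∧ t ≤ 1 ∧
      (24 ≤ ((c i').1 : ℕ) → ((c i').1 : ℕ) < 40 → 3 / 4 ≤ t) ∧
      ‖z - ((pst δ 0 s c i').1 + (τ : ℂ) * (pst δ 0 s c i').2
          + bsign (c i').2 * (δ i' : ℂ) * Complex.I * (t : ℂ) * (pst δ 0 s c i').2)‖ ≤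
        (1 / 59) * (δ i' * ‖(pst δ 0 s c i').2‖) := by
  obtain ⟨-, f2, -, -, -, f6⟩ := child_facts (δ i') (hδ i') (hδ' i') (c i').2 (pst δ 0 s c i')
  have hP : pst δ 0 s c (i' + 1) = child (δ i') (c i').2 ((c i').1 : ℕ) (pst δ 0 s c i') := by
    rw [pst, Nat.zero_add]
  obtain ⟨τ, t, a1, a2, a3, a4, a5, a6⟩ := f6 ((c i').1 : ℕ) (c i').1.2 τ₁ h0 h1
  refine ⟨τ, t, a1, a2, a3, a4, a5, ?_⟩
  rw [← a6, ← hP]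
  refine hz.trans ?_
  have h2 := f2 ((c i').1 : ℕ) (c i').1.2
  rw [← hP] at h2
  have h3 : δ (i' + 1) ≤ δ i' := hanti (Nat.le_succ _)
  have h4 : δ (i' + 1) * ‖(pst δ 0 s c (i' + 1)).2‖ ≤ δ i' * (‖(pst δ 0 s c i').2‖ / 60) :=
    mul_le_mul h3 h2 (norm_nonneg _) (hδ i')
  linarith

/-- weaker bound at level i' -/
theorem pst_weak (δ : ℕ → ℝ) (hδ : ∀ j, 0 ≤ δ j)
    (c : ℕ → Fin 64 × Bool) (s : ℂ × ℂ) (i' : ℕ) (z : ℂ)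
    (h : ∃ τ t : ℝ, 0 ≤ τ ∧ τ ≤ 1 ∧ 0 ≤ t ∧ t ≤ 1 ∧
      (24 ≤ ((c i').1 : ℕ) → ((c i').1 : ℕ) < 40 → 3 / 4 ≤ t) ∧
      ‖z - ((pst δ 0 s c i').1 + (τ : ℂ) * (pst δ 0 s c i').2
          + bsign (c i').2 * (δ i' : ℂ) * Complex.I * (t : ℂ) * (pst δ 0 s c i').2)‖ ≤
        (1 / 59) * (δ i' * ‖(pst δ 0 s c i').2‖)) :
    ∃ τ : ℝ, 0 ≤ τ ∧ τ ≤ 1 ∧
      ‖z - ((pst δ 0 s c i').1 + (τ : ℂ) * (pst δ 0 s c i').2)‖ ≤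
        (60 / 59) * (δ i' * ‖(pst δ 0 s c i').2‖) := by
  obtain ⟨τ, t, a1, a2, a3, a4, -, a6⟩ := h
  refine ⟨τ, a1, a2, ?_⟩
  set w := (pst δ 0 s c i').2 with hw
  set p := (pst δ 0 s c i').1 with hp
  have h1 : z - (p + (τ : ℂ) * w) = (z - (p + (τ : ℂ) * w + bsign (c i').2 * (δ i' : ℂ) * Complex.I * (t : ℂ) * w))
      + bsign (c i').2 * (δ i' : ℂ) * Complex.I * (t : ℂ) * w := by ring
  rw [h1]
  refine (norm_add_le _ _).trans ?_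
  have h2 : ‖bsign (c i').2 * (δ i' : ℂ) * Complex.I * (t : ℂ) * w‖ = δ i' * t * ‖w‖ := by
    rw [norm_mul, norm_mul, norm_mul, norm_mul, norm_bsign, Complex.norm_I, Complex.norm_real,
      Complex.norm_real, Real.norm_of_nonneg (hδ i'), Real.norm_of_nonneg a3]
    ring
  rw [h2]
  have h3 : δ i' * t * ‖w‖ ≤ δ i' * ‖w‖ := by
    have : δ i' * t ≤ δ i' := by
      have := mul_le_mul_of_nonneg_left a4 (hδ i')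
      linarith
    exact mul_le_mul_of_nonneg_right this (norm_nonneg _)
  linarith

theorem pst_down (δ : ℕ → ℝ) (hδ : ∀ j, 0 ≤ δ j) (hδ' : ∀ j, δ j ≤ 1 / 8) (hanti : Antitone δ)
    (c : ℕ → Fin 64 × Bool) (s : ℂ × ℂ) (m : ℕ) : ∀ (i' : ℕ) (τ : ℝ), 0 ≤ τ → τ ≤ 1 →
    ∃ τ' : ℝ, 0 ≤ τ' ∧ τ' ≤ 1 ∧
      ‖((pst δ 0 s c (i' + m)).1 + (τ : ℂ) * (pst δ 0 s c (i' + m)).2)
          - ((pst δ 0 s c i').1 + (τ' : ℂ) * (pst δ 0 s c i').2)‖ ≤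
        (60 / 59) * (δ i' * ‖(pst δ 0 s c i').2‖) := by
  induction m with
  | zero =>
    intro i' τ h0 h1
    refine ⟨τ, h0, h1, ?_⟩
    rw [Nat.add_zero, sub_self, norm_zero]
    have := mul_nonneg (hδ i') (norm_nonneg (pst δ 0 s c i').2)
    linarith
  | succ m ih =>
    intro i' τ h0 h1
    obtain ⟨τ₁, b0, b1, b2⟩ := ih (i' + 1) τ h0 h1
    have he : i' + 1 + m = i' + (m + 1) := by ring
    rw [he] at b2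
    exact pst_weak δ hδ c s i' _ (pst_step δ hδ hδ' hanti c s i' _ τ₁ b0 b1 b2)

theorem _root_.H941.pst_near (δ : ℕ → ℝ) (hδ : ∀ j, 0 ≤ δ j) (hδ' : ∀ j, δ j ≤ 1 / 8) (hanti : Antitone δ)
    (c : ℕ → Fin 64 × Bool) (s : ℂ × ℂ) (i : ℕ) :
    (∀ i' < i, ∃ τ t : ℝ, 0 ≤ τ ∧ τ ≤ 1 ∧ 0 ≤ t ∧ t ≤ 1 ∧
      (24 ≤ ((c i').1 : ℕ) → ((c i').1 : ℕ) < 40 → 3 / 4 ≤ t) ∧
      ‖(pst δ 0 s c i).1 - ((pst δ 0 s c i').1 + (τ : ℂ) * (pst δ 0 s c i').2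
          + bsign (c i').2 * (δ i' : ℂ) * Complex.I * (t : ℂ) * (pst δ 0 s c i').2)‖ ≤
        (1 / 59) * (δ i' * ‖(pst δ 0 s c i').2‖)) ∧
    (∀ i' ≤ i, ∀ τ : ℝ, 0 ≤ τ → τ ≤ 1 → ∃ τ' : ℝ, 0 ≤ τ' ∧ τ' ≤ 1 ∧
      ‖((pst δ 0 s c i').1 + (τ : ℂ) * (pst δ 0 s c i').2) - (s.1 + (τ' : ℂ) * s.2)‖ ≤
        (60 / 59) * (δ 0 * ‖s.2‖)) ∧
    (∀ i', ‖(pst δ 0 s c i').2‖ =
      ‖s.2‖ * ∏ k ∈ Finset.range i', (Real.sqrt (1 + 4 * δ k ^ 2) / 64)) := by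
  refine ⟨?_, ?_, ?_⟩
  · intro i' hi
    obtain ⟨m, rfl⟩ : ∃ m, i = i' + 1 + m := ⟨i - (i' + 1), by omega⟩
    obtain ⟨τ₁, b0, b1, b2⟩ := pst_down δ hδ hδ' hanti c s m (i' + 1) 0 le_rfl zero_le_one
    rw [Complex.ofReal_zero, zero_mul, add_zero] at b2
    exact pst_step δ hδ hδ' hanti c s i' _ τ₁ b0 b1 b2
  · intro i' _ τ h0 h1
    have := pst_down δ hδ hδ' hanti c s i' 0 τ h0 h1
    rw [Nat.zero_add] at this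
    exact this
  · intro i'
    induction i' with
    | zero => simp [pst]
    | succ i' ih =>
      obtain ⟨f1, -⟩ := child_facts (δ i') (hδ i') (hδ' i') (c i').2 (pst δ 0 s c i')
      have hP : pst δ 0 s c (i' + 1) = child (δ i') (c i').2 ((c i').1 : ℕ) (pst δ 0 s c i') := by
        rw [pst, Nat.zero_add]
      rw [hP, f1 _ (c i').1.2, ih, Finset.prod_range_succ]
      ring

end H941.pst_near
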