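import Pool.Agent.KS6_63.GFF.Defs3
import Pool.Agent.KS6_63.GFF.A2

open MeasureTheory ProbabilityTheory

namespace H941.row_le

theorem _root_.H941.row_le (D : Finset (ℤ × ℤ)) (c : ℤ) (B : ℕ) (hD : ∀ z ∈ D, c < z.2 ∧ z.2 < c + B)
    (z : ℤ × ℤ) (hz : z ∈ D) :
    ∑ v ∈ D, green D z v ≤ 2 * ((z.2 : ℝ) - c) * ((c : ℝ) + B - z.2) := by
  have hsum : ∀ (g : ℤ × ℤ → ℝ) (x : ℤ × ℤ), ∑ z ∈ nbrs x, g z =
      g (x.1 + 1, x.2) + (g (x.1 - 1, x.2) + (g (x.1, x.2 + 1) + g (x.1, x.2 - 1))) := by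
    intro g x
    unfold nbrs
    rw [Finset.sum_insert, Finset.sum_insert, Finset.sum_insert, Finset.sum_singleton]
    · simp only [Finset.mem_singleton, Prod.mk.injEq, not_and]
      intro _; omega
    · simp only [Finset.mem_insert, Finset.mem_singleton, Prod.mk.injEq]
      omega
    · simp only [Finset.mem_insert, Finset.mem_singleton, Prod.mk.injEq]
      omega
  obtain ⟨g, hg⟩ : ∃ g : ℤ × ℤ → ℝ,
      g = fun z => 2 * max 0 (((z.2 : ℝ) - c) * ((c : ℝ) + B - z.2)) := ⟨_, rfl⟩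
  have hgv : ∀ z : ℤ × ℤ, c ≤ z.2 → z.2 ≤ c + B →
      g z = 2 * (((z.2 : ℝ) - c) * ((c : ℝ) + B - z.2)) := by
    intro z h1 h2
    have h3 : (0 : ℝ) ≤ (z.2 : ℝ) - c := by
      have : (c : ℝ) ≤ z.2 := by exact_mod_cast h1
      linarith
    have h4 : (0 : ℝ) ≤ (c : ℝ) + B - z.2 := by
      have : (z.2 : ℝ) ≤ (c : ℝ) + B := by exact_mod_cast h2
      linarith
    rw [hg]
    simp only
    rw [max_eq_right (mul_nonneg h3 h4)]
  have h := (green_le D).2 (fun _ => 1) g (fun _ _ => zero_le_one)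
    (fun z => by rw [hg]; positivity) (by
    intro x hx
    obtain ⟨h1, h2⟩ := hD x hx
    rw [hsum, hgv x (by omega) (by omega), hgv _ (by simp only; omega) (by simp only; omega),
      hgv _ (by simp only; omega) (by simp only; omega),
      hgv _ (by simp only; omega) (by simp only; omega),
      hgv _ (by simp only; omega) (by simp only; omega)]
    simp only
    push_cast
    apply le_of_eq
    ring) z
  simp only [mul_one] at h
  refine h.trans ?_
  obtain ⟨h1, h2⟩ := hD z hz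
  rw [hgv z (by omega) (by omega)]
  apply le_of_eq
  ring

end H941.row_le
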