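import Pool.Agent.KS6_63.GFF.Defs3

open MeasureTheory ProbabilityTheory

namespace H941.segs_facts

theorem pst_succ_left (δ : ℕ → ℝ) (j : ℕ) (s : ℂ × ℂ) (c : ℕ → Fin 64 × Bool) (i : ℕ) :
    pst δ j s c (i + 1) =
      pst δ (j + 1) (child (δ j) (c 0).2 ((c 0).1 : ℕ) s) (fun i => c (i + 1)) i := by
  induction i with
  | zero => simp [pst]
  | succ i ih =>
    rw [pst, ih]
    show _ = child (δ (j + 1 + i)) (c (i + 1)).2 ((c (i + 1)).1 : ℕ)
      (pst δ (j + 1) (child (δ j) (c 0).2 ((c 0).1 : ℕ) s) (fun i => c (i + 1)) i)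
    rw [show j + (i + 1) = j + 1 + i by ring]

theorem extd_cons_zero {n : ℕ} (a : Fin 64 × Bool) (c : Fin n → Fin 64 × Bool) :
    extd (Fin.cons a c : Fin (n + 1) → Fin 64 × Bool) 0 = a := by
  unfold extd
  rw [dif_pos (Nat.succ_pos n)]
  rfl

theorem extd_cons_succ {n : ℕ} (a : Fin 64 × Bool) (c : Fin n → Fin 64 × Bool) (i : ℕ) :
    extd (Fin.cons a c : Fin (n + 1) → Fin 64 × Bool) (i + 1) = extd c i := by
  unfold extd
  by_cases h : i < n
  · rw [dif_pos (Nat.succ_lt_succ h), dif_pos h]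
    rfl
  · rw [dif_neg (fun h' => h (Nat.lt_of_succ_lt_succ h')), dif_neg h]

theorem pst_cons {n : ℕ} (δ : ℕ → ℝ) (j : ℕ) (s : ℂ × ℂ) (a : Fin 64 × Bool)
    (c : Fin n → Fin 64 × Bool) (i : ℕ) :
    pst δ j s (extd (Fin.cons a c : Fin (n + 1) → Fin 64 × Bool)) (i + 1) =
      pst δ (j + 1) (child (δ j) a.2 (a.1 : ℕ) s) (extd c) i := by
  rw [pst_succ_left, extd_cons_zero]
  congr 1
  funext i
  exact extd_cons_succ a c i

theorem segs_map_sum (δ : ℕ → ℝ) (σ : ℕ → ℂ × ℂ → Bool) (F : ℂ × ℂ → ℝ) (n : ℕ) :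
    ∀ (j : ℕ) (s : ℂ × ℂ), ((segs δ σ n j s).map F).sum =
      ∑ c : Fin n → Fin 64 × Bool,
        (∏ i : Fin n, if σ (j + i) (pst δ j s (extd c) i) = (c i).2 then (1 : ℝ) else 0) *
          F (pst δ j s (extd c) n) := by
  induction n with
  | zero =>
    intro j s
    simp [segs, pst]
  | succ n ih =>
    intro j s
    have h1 : ((segs δ σ (n + 1) j s).map F).sum =
        ∑ k : Fin 64, ((segs δ σ n (j + 1) (child (δ j) (σ j s) (k : ℕ) s)).map F).sum := by
      have h0 : ∀ (l : List ℕ) (g : ℕ → List (ℂ × ℂ)), ((l.flatMap g).map F).sum =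
          (l.map (fun k => ((g k).map F).sum)).sum := by
        intro l g
        induction l with
        | nil => simp
        | cons x l ihl => simp [List.flatMap_cons, ihl]
      rw [segs, h0, ← Finset.sum_range (fun k => ((segs δ σ n (j + 1) (child (δ j) (σ j s) k s)).map F).sum)]
      rfl
    rw [h1, ← (Fin.consEquiv (fun _ => Fin 64 × Bool)).sum_comp, Fintype.sum_prod_type,
      Fintype.sum_prod_type]
    refine Finset.sum_congr rfl fun k _ => ?_
    have h2 : ∀ b : Bool, (∑ c : Fin n → Fin 64 × Bool,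
        (∏ i : Fin (n + 1), if σ (j + i) (pst δ j s (extd ((Fin.consEquiv (fun _ => Fin 64 × Bool)) ((k, b), c))) i) =
          ((Fin.consEquiv (fun _ => Fin 64 × Bool)) ((k, b), c) i).2 then (1 : ℝ) else 0) *
          F (pst δ j s (extd ((Fin.consEquiv (fun _ => Fin 64 × Bool)) ((k, b), c))) (n + 1))) =
        if σ j s = b then ((segs δ σ n (j + 1) (child (δ j) b (k : ℕ) s)).map F).sum else 0 := by
      intro b
      rw [ih]
      have h3 : ∀ c : Fin n → Fin 64 × Bool,
          (∏ i : Fin (n + 1), if σ (j + i) (pst δ j s (extd ((Fin.consEquiv (fun _ => Fin 64 × Bool)) ((k, b), c))) i) =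
          ((Fin.consEquiv (fun _ => Fin 64 × Bool)) ((k, b), c) i).2 then (1 : ℝ) else 0) *
          F (pst δ j s (extd ((Fin.consEquiv (fun _ => Fin 64 × Bool)) ((k, b), c))) (n + 1)) =
          (if σ j s = b then (1 : ℝ) else 0) *
          ((∏ i : Fin n, if σ (j + 1 + i) (pst δ (j + 1) (child (δ j) b (k : ℕ) s) (extd c) i) = (c i).2
            then (1 : ℝ) else 0) *
          F (pst δ (j + 1) (child (δ j) b (k : ℕ) s) (extd c) n)) := by
        intro c
        have h4 : (Fin.consEquiv (fun _ => Fin 64 × Bool)) ((k, b), c) =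
          (Fin.cons (k, b) c : Fin (n + 1) → Fin 64 × Bool) := rfl
        rw [h4, Fin.prod_univ_succ, pst_cons, mul_assoc]
        congr 1
        congr 1
        refine Finset.prod_congr rfl fun i _ => ?_
        rw [Fin.cons_succ, Fin.val_succ, pst_cons, show j + ((i : ℕ) + 1) = j + 1 + (i : ℕ) by ring]
      rw [Finset.sum_congr rfl (fun c _ => h3 c), ← Finset.mul_sum]
      split_ifs <;> simp
    rw [Finset.sum_congr rfl (fun b _ => h2 b)]
    simp

theorem _root_.H941.segs_facts (δ : ℕ → ℝ) (σ : ℕ → ℂ × ℂ → Bool) :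
    (∀ q m j s, leaves δ q σ m j s = (segs δ σ m j s).flatMap (finalVerts q)) ∧
    (∀ a b j s, segs δ σ (a + b) j s = (segs δ σ a j s).flatMap (fun s' => segs δ σ b (j + a) s')) ∧
    (∀ (F : ℂ × ℂ → ℝ) (n j : ℕ) (s : ℂ × ℂ), ((segs δ σ n j s).map F).sum =
      ∑ c : Fin n → Fin 64 × Bool,
        (∏ i : Fin n, if σ (j + i) (pst δ j s (extd c) i) = (c i).2 then (1 : ℝ) else 0) *
          F (pst δ j s (extd c) n)) ∧
    (∀ m j s, (segs δ σ m j s).length = 64 ^ m) ∧
    (∀ m j s, ∀ s' ∈ segs δ σ m j s, ∃ c : ℕ → Fin 64 × Bool, s' = pst δ j s c m) := by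
  refine ⟨?_, ?_, ?_, ?_, ?_⟩
  · intro q m
    induction m with
    | zero => intro j s; simp [leaves, segs]
    | succ m ih =>
      intro j s
      rw [leaves, segs, List.flatMap_assoc]
      congr 1
      funext k
      exact ih _ _
  · intro a b
    induction a with
    | zero => intro j s; simp [segs]
    | succ a ih =>
      intro j s
      rw [show a + 1 + b = (a + b) + 1 by ring, segs, segs, List.flatMap_assoc]
      congr 1
      funext k
      rw [ih, show j + 1 + a = j + (a + 1) by ring]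
  · intro F n j s
    exact segs_map_sum δ σ F n j s
  · intro m
    induction m with
    | zero => intro j s; simp [segs]
    | succ m ih =>
      intro j s
      rw [segs, List.length_flatMap]
      simp only [ih]
      rw [List.map_const', List.sum_replicate, List.length_range]
      simp [pow_succ]
      ring
  · intro m
    induction m with
    | zero =>
      intro j s s' hs'
      refine ⟨fun _ => (0, true), ?_⟩
      simpa [segs, pst] using hs'
    | succ m ih =>
      intro j s s' hs'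
      rw [segs, List.mem_flatMap] at hs'
      obtain ⟨k, hk, hs'⟩ := hs'
      obtain ⟨c, hc⟩ := ih _ _ _ hs'
      have hk' : k < 64 := List.mem_range.1 hk
      refine ⟨fun i => Nat.casesOn i (⟨k, hk'⟩, σ j s) c, ?_⟩
      rw [pst_succ_left, hc]
      rfl

end H941.segs_facts
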