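import Pool.Agent.KS6_63.GFF.Defs3

open MeasureTheory ProbabilityTheory

namespace H941.shift_bound




theorem sb_half : gaussianReal 0 1 (Set.Iio (0 : ℝ)) ≤ 1 / 2 := by
  have h1 : (gaussianReal 0 1).map (fun x => -x) = gaussianReal 0 1 := by
    rw [gaussianReal_map_neg, neg_zero]
  have h2 : gaussianReal 0 1 (Set.Iio (0 : ℝ)) = gaussianReal 0 1 (Set.Ioi (0 : ℝ)) := by
    conv_lhs => rw [← h1]
    rw [Measure.map_apply measurable_neg measurableSet_Iio]
    congr 1
    ext x
    simp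
  have h3 : gaussianReal 0 1 (Set.Iio (0 : ℝ)) + gaussianReal 0 1 (Set.Ioi (0 : ℝ)) ≤ 1 := by
    rw [← measure_union _ measurableSet_Ioi]
    · exact prob_le_one
    · rw [Set.disjoint_left]
      intro x hx hx'
      exact lt_asymm (Set.mem_Iio.1 hx) (Set.mem_Ioi.1 hx')
  rw [← h2, ← two_mul] at h3
  rw [ENNReal.le_div_iff_mul_le (Or.inl (by norm_num)) (Or.inl (by norm_num)), mul_comm]
  exact h3

theorem _root_.H941.shift_bound {ι : Type} [Fintype ι] [DecidableEq ι] (Γ : Matrix ι ι ℝ) (hΓ : Γ.PosSemidef)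
    (a : ι → ℝ) (σ b : ℝ) (hσ : 0 < σ) (hσ' : ∑ i, ∑ j, a i * Γ i j * a j = σ ^ 2)
    (h : EuclideanSpace ℝ ι) (hh : ∀ i, h i = (∑ j, Γ i j * a j) / σ)
    (A B : Set (EuclideanSpace ℝ ι)) (hA : MeasurableSet A) (hBm : MeasurableSet B)
    (hB : ∀ x ∈ B, ∀ u : ℝ, 0 ≤ u → x - u • h ∈ B) (hAB : ∀ x ∈ A, x - b • h ∈ B) :
    gaussianReal 0 1 (Set.Iic (-b)) * (multivariateGaussian (0 : EuclideanSpace ℝ ι) Γ A - 1 / 2) ≤
      multivariateGaussian (0 : EuclideanSpace ℝ ι) Γ B := by
  classical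
  set P : Measure (EuclideanSpace ℝ ι) := multivariateGaussian (0 : EuclideanSpace ℝ ι) Γ with hP
  set α : EuclideanSpace ℝ ι := WithLp.toLp 2 (fun i => a i / σ) with hα
  have hαi : ∀ i, α i = a i / σ := fun i => rfl
  set Y : EuclideanSpace ℝ ι →L[ℝ] ℝ := innerSL ℝ α with hY
  have hYx : ∀ x, Y x = inner ℝ α x := fun x => rfl
  set Z : EuclideanSpace ℝ ι →L[ℝ] EuclideanSpace ℝ ι :=
    ContinuousLinearMap.id ℝ (EuclideanSpace ℝ ι) - Y.smulRight h with hZ
  have hZx : ∀ x, Z x = x - Y x • h := fun x => by simp [hZ]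
  have hmem : MemLp id 2 P := IsGaussian.memLp_two_id
  have hcov : ∀ u : EuclideanSpace ℝ ι, covarianceBilin P u α = inner ℝ u h := by
    intro u
    rw [hP, covarianceBilin_multivariateGaussian hΓ, PiLp.inner_apply]
    simp only [dotProduct, Matrix.mulVec, hh, hαi, RCLike.inner_apply, conj_trivial]
    refine Finset.sum_congr rfl fun i _ => ?_
    rw [mul_comm, Finset.sum_div]
    congr 1
    refine Finset.sum_congr rfl fun j _ => ?_
    ring
  have hαh : inner ℝ α h = 1 := by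
    rw [PiLp.inner_apply]
    simp only [hh, hαi, RCLike.inner_apply, conj_trivial]
    have h1 : ∀ i, (∑ j, Γ i j * a j) / σ * (a i / σ) = (∑ j, a i * Γ i j * a j) / σ ^ 2 := by
      intro i
      rw [div_mul_div_comm, ← pow_two, Finset.sum_mul]
      congr 1
      refine Finset.sum_congr rfl fun j _ => ?_
      ring
    simp only [h1]
    rw [← Finset.sum_div, hσ']
    exact div_self (pow_pos hσ 2).ne'
  have hind : IndepFun Z Y P := by
    refine HasGaussianLaw.indepFun_of_covariance_inner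
      ((IsGaussian.hasGaussianLaw_id (μ := P)).map_fun (Z.prod Y)) ?_
    intro u y
    have e1 : (fun ω => inner ℝ u (Z ω)) = fun ω => inner ℝ (u - (inner ℝ u h : ℝ) • α) ω := by
      funext ω
      rw [hZx, inner_sub_right, inner_smul_right, inner_sub_left, inner_smul_left, hYx]
      simp only [conj_trivial]
      ring
    have e2 : (fun ω => inner ℝ y (Y ω)) = fun ω => inner ℝ (y • α) ω := by
      funext ω
      rw [inner_smul_left, hYx]
      simp only [RCLike.inner_apply, conj_trivial]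
      ring
    rw [e1, e2, ← covarianceBilin_apply_eq_cov hmem, map_smul, smul_eq_mul, hcov,
      inner_sub_left, inner_smul_left, hαh]
    simp
  have hYlaw : P.map Y = gaussianReal 0 1 := by
    rw [IsGaussian.map_eq_gaussianReal, ContinuousLinearMap.integral_comp_id_comm]
    · have hv : Var[Y; P] = 1 := by
        have e3 : (Y : EuclideanSpace ℝ ι → ℝ) = fun u => inner ℝ α u := by
          funext x
          exact hYx x
        rw [e3, ← covarianceBilin_self hmem, hcov, hαh]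
      rw [hv, hP, integral_id_multivariateGaussian]
      simp
    · exact IsGaussian.integrable_id
  have hY1 : P (Y ⁻¹' Set.Iic (-b)) = gaussianReal 0 1 (Set.Iic (-b)) := by
    rw [← hYlaw, Measure.map_apply (by fun_prop) measurableSet_Iic]
  have hY2 : P (Y ⁻¹' Set.Iio 0) ≤ 1 / 2 := by
    have e4 : P (Y ⁻¹' Set.Iio 0) = gaussianReal 0 1 (Set.Iio 0) := by
      rw [← hYlaw, Measure.map_apply (by fun_prop) measurableSet_Iio]
    rw [e4]
    exact sb_half
  set C : Set (EuclideanSpace ℝ ι) := {z | z - b • h ∈ B} with hC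
  have hCm : MeasurableSet C := (measurable_id.sub_const (b • h)) hBm
  have hsub1 : A ⊆ (Z ⁻¹' C) ∪ (Y ⁻¹' Set.Iio 0) := by
    intro x hx
    by_cases hy : Y x < 0
    · exact Or.inr hy
    · left
      have e5 : Z x - b • h = (x - b • h) - Y x • h := by
        rw [hZx]
        abel
      change Z x - b • h ∈ B
      rw [e5]
      exact hB _ (hAB x hx) _ (not_lt.1 hy)
  have hsub2 : (Z ⁻¹' C) ∩ (Y ⁻¹' Set.Iic (-b)) ⊆ B := by
    rintro x ⟨hx1, hx2⟩
    have e6 : x = (Z x - b • h) - (-b - Y x) • h := by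
      rw [hZx, sub_smul, neg_smul]
      abel
    rw [e6]
    exact hB _ hx1 _ (sub_nonneg.2 hx2)
  have hA1 : P A - 1 / 2 ≤ P (Z ⁻¹' C) := by
    rw [tsub_le_iff_right]
    exact (measure_mono hsub1).trans ((measure_union_le _ _).trans (add_le_add le_rfl hY2))
  calc gaussianReal 0 1 (Set.Iic (-b)) * (P A - 1 / 2)
      ≤ gaussianReal 0 1 (Set.Iic (-b)) * P (Z ⁻¹' C) := mul_le_mul_right hA1 _
    _ = P (Z ⁻¹' C) * P (Y ⁻¹' Set.Iic (-b)) := by rw [hY1, mul_comm]
    _ = P ((Z ⁻¹' C) ∩ (Y ⁻¹' Set.Iic (-b))) :=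
        (hind.measure_inter_preimage_eq_mul C (Set.Iic (-b)) hCm measurableSet_Iic).symm
    _ ≤ P B := measure_mono hsub2

end H941.shift_bound
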